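import Pool.Agent.H62.TD.Struct
import Pool.Agent.H89.TDS.Char

/-!
Normal homogeneous two-distance sets: growth and structure of the graph of the shorter distance
(MP_2fc877_gt).
-/

namespace Pool.Agent.H62.TD

open Subgroup Pool.Agent.H89.TDS

/-- Two indices are adjacent if their points are at the shorter distance. -/
def shortGraph {V E : Type} [MetricSpace E] (v : V → E) : SimpleGraph V where
  Adj i j := i ≠ j ∧ ∀ p q, p ≠ q → dist (v i) (v j) ≤ dist (v p) (v q)
  symm := ⟨fun i j h => ⟨h.1.symm, fun p q hpq => by rw [dist_comm]; exact h.2 p q hpq⟩⟩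
  loopless := ⟨fun _ h => h.1 rfl⟩

/-- The indices are divided into blocks of exactly `b` elements, numbered by `J × B`, `B` an abelian
group generated by a set `T` of at most `k` elements. Indices have the same `J`-part if and only if
they are connected in the graph of the shorter distance; adjacent indices have `B`-parts that differ
by an element of `T`, and each index `i` has for each `τ ∈ T` a neighbour whose `B`-part is that of
`i` plus `τ`. All isometries permute the blocks, and an isometry that moves each point by `0` or the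
shorter distance translates the `B`-parts of each component. -/
def HasAbelianBlocks {V E : Type} [MetricSpace E] (v : V → E) (b k : ℕ) : Prop :=
  ∃ (J B : Type) (_ : AddCommGroup B) (π : V → J × B) (T : Set B),
    (∀ p, (π ⁻¹' {p}).ncard = b) ∧ T.ncard ≤ k ∧ AddSubgroup.closure T = ⊤ ∧
    (∀ i j, (π i).1 = (π j).1 ↔ (shortGraph v).Reachable i j) ∧
    (∀ i j, (shortGraph v).Adj i j → ∃ τ ∈ T, π j = ((π i).1, (π i).2 + τ)) ∧
    (∀ i, ∀ τ ∈ T, ∃ j, (shortGraph v).Adj i j ∧ π j = ((π i).1, (π i).2 + τ)) ∧
    (∀ σ : Equiv.Perm V, (∀ i j, dist (v (σ i)) (v (σ j)) = dist (v i) (v j)) →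
      (∀ i j, π i = π j → π (σ i) = π (σ j)) ∧
      ((∀ i, σ i = i ∨ (shortGraph v).Adj i (σ i)) →
        ∀ x : J, ∃ β : B, ∀ i, (π i).1 = x → π (σ i) = (x, (π i).2 + β)))

section

variable {V E : Type} [MetricSpace E] {v : V → E}

theorem shortGraph_smul (g : isoGroup v) (i j : V) (h : (shortGraph v).Adj i j) :
    (shortGraph v).Adj (g • i) (g • j) := by
  refine ⟨fun h0 => h.1 (MulAction.injective g h0), fun p q hpq => ?_⟩
  rw [isoGroup_dist]
  exact h.2 p q hpq

/-- the isometries that move each point by zero or the shorter distance -/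
def shifts (v : V → E) : Set (isoGroup v) := {g | ∀ i, g • i = i ∨ (shortGraph v).Adj i (g • i)}

theorem shifts_one : (1 : isoGroup v) ∈ shifts v := fun i => Or.inl (one_smul _ i)

theorem shifts_inv : ∀ g ∈ shifts v, g⁻¹ ∈ shifts v := by
  intro g hg i
  rcases hg (g⁻¹ • i) with h | h
  · left
    rw [smul_inv_smul] at h
    exact h.symm
  · right
    rw [smul_inv_smul] at h
    exact h.symm

theorem shifts_conj : ∀ g : isoGroup v, ∀ s ∈ shifts v, g * s * g⁻¹ ∈ shifts v := by
  intro g s hs i
  rcases hs (g⁻¹ • i) with h | h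
  · left
    rw [mul_smul, mul_smul, h, smul_inv_smul]
  · right
    have := shortGraph_smul g _ _ h
    rw [smul_inv_smul] at this
    rw [mul_smul, mul_smul]
    exact this

/-- facts about a normal homogeneous two-distance set -/
theorem normal_facts [Finite V] [Nonempty V] (hv : Function.Injective v)
    (h2 : IsTwoDistance (Set.range v)) (hN : IsNormalHomogeneous (Set.range v)) :
    (∀ i j : V, ∃ g : isoGroup v, g • i = j) ∧
      (∀ i j : V, stepRel (shifts v) i j ↔ i = j ∨ (shortGraph v).Adj i j) := by
  classical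
  have : Finite (Set.range v) := Set.finite_range v
  obtain ⟨x₀⟩ := (inferInstance : Nonempty V)
  have : Nonempty (Set.range v) := ⟨⟨v x₀, Set.mem_range_self _⟩⟩
  rw [normalHomogeneous_iff] at hN
  have hN' : ∀ i j : V, ∃ g : isoGroup v, g • i = j ∧ ∀ k, dist (v k) (v (g • k)) ≤ dist (v i) (v j) := by
    intro i j
    obtain ⟨f, hf, hfd⟩ := hN ⟨v i, Set.mem_range_self i⟩ ⟨v j, Set.mem_range_self j⟩
    obtain ⟨g, hg⟩ := exists_perm hv f
    refine ⟨g, ?_, ?_⟩
    · apply hv
      have := hg i
      rw [hf] at this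
      exact (congrArg Subtype.val this).symm
    · intro k
      have := hfd ⟨v k, Set.mem_range_self k⟩
      rw [hg k] at this
      exact this
  refine ⟨fun i j => ?_, fun i j => ⟨?_, ?_⟩⟩
  · obtain ⟨g, hg, -⟩ := hN' i j
    exact ⟨g, hg⟩
  · rintro ⟨s, hs, rfl⟩
    rcases hs i with h | h
    · exact Or.inl h.symm
    · exact Or.inr h
  · rintro (rfl | h)
    · exact ⟨1, shifts_one, one_smul _ _⟩
    · obtain ⟨g, hg, hgd⟩ := hN' i j
      refine ⟨g, ?_, hg⟩
      intro k
      by_cases hk : g • k = k
      · exact Or.inl hk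
      · right
        exact ⟨fun h0 => hk h0.symm, fun p q hpq => (hgd k).trans (h.2 p q hpq)⟩

theorem walk_iff_ball (hs : ∀ i j : V, stepRel (shifts v) i j ↔ i = j ∨ (shortGraph v).Adj i j) :
    ∀ (r : ℕ) (i j : V), (∃ w : (shortGraph v).Walk i j, w.length ≤ r) ↔
      ball (stepRel (shifts v)) r i j
  | 0, i, j => by
      constructor
      · rintro ⟨w, hw⟩
        exact SimpleGraph.Walk.eq_of_length_eq_zero (Nat.le_zero.1 hw)
      · intro h
        have h : i = j := h
        subst h
        exact ⟨SimpleGraph.Walk.nil, le_rfl⟩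
  | r + 1, i, j => by
      constructor
      · rintro ⟨w, hw⟩
        cases w with
        | nil =>
          exact ⟨i, (hs i i).2 (Or.inl rfl), (walk_iff_ball hs r i i).1 ⟨SimpleGraph.Walk.nil,
            Nat.zero_le _⟩⟩
        | cons h p =>
          rename_i u
          refine ⟨u, (hs i u).2 (Or.inr h), (walk_iff_ball hs r u j).1 ⟨p, ?_⟩⟩
          rw [SimpleGraph.Walk.length_cons] at hw
          omega
      · rintro ⟨z, hz, hz2⟩
        obtain ⟨p, hp⟩ := (walk_iff_ball hs r z j).2 hz2
        rcases (hs i z).1 hz with rfl | h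
        · exact ⟨p, by omega⟩
        · exact ⟨SimpleGraph.Walk.cons h p, by rw [SimpleGraph.Walk.length_cons]; omega⟩

theorem reachable_iff (hs : ∀ i j : V, stepRel (shifts v) i j ↔ i = j ∨ (shortGraph v).Adj i j)
    (i j : V) : (∃ g ∈ closure (shifts v), g • i = j) ↔ (shortGraph v).Reachable i j := by
  constructor
  · rintro ⟨g, hg, rfl⟩
    induction hg using closure_induction_left with
    | one => rw [one_smul]
    | mul_left t ht g hg ih =>
      refine ih.trans ?_
      rw [mul_smul]
      rcases ht (g • i) with h | h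
      · rw [h]
      · exact h.reachable
    | inv_mul_cancel t ht g hg ih =>
      refine ih.trans ?_
      rw [mul_smul]
      rcases shifts_inv t ht (g • i) with h | h
      · rw [h]
      · exact h.reachable
  · rintro ⟨w⟩
    induction w with
    | nil => exact ⟨1, one_mem _, one_smul _ _⟩
    | cons h p ih =>
      obtain ⟨g, hg, hgx⟩ := ih
      obtain ⟨s, hs1, hs2⟩ := (hs _ _).2 (Or.inr h)
      exact ⟨g * s, mul_mem hg (subset_closure hs1), by rw [mul_smul, hs2, hgx]⟩

/-- **Growth and structure.** -/
theorem growth_structure [Finite V] [Nonempty V] (hv : Function.Injective v)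
    (h2 : IsTwoDistance (Set.range v)) (hN : IsNormalHomogeneous (Set.range v)) {k : ℕ} (i0 : V)
    (hk : {j | (shortGraph v).Adj i0 j}.ncard = k) :
    (∀ (i : V) (r : ℕ), {j | ∃ w : (shortGraph v).Walk i j, w.length ≤ r}.ncard ≤ (k + r).choose r) ∧
      ∃ b, 0 < b ∧ b ≤ orbBound (k + 1) ∧ HasAbelianBlocks v b k := by
  classical
  obtain ⟨htr, hs⟩ := normal_facts hv h2 hN
  have hpre : MulAction.IsPretransitive (isoGroup v) V := ⟨htr⟩
  have hkset : ∀ i : V, {j | stepRel (shifts v) i j ∧ j ≠ i} = {j | (shortGraph v).Adj i j} := by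
    intro i
    ext j
    simp only [Set.mem_ofPred_eq, hs]
    constructor
    · rintro ⟨h | h, hne⟩
      · exact absurd h.symm hne
      · exact h
    · intro h
      exact ⟨Or.inr h, h.1.symm⟩
  have hle : ∀ (g : isoGroup v) (i : V), {j | (shortGraph v).Adj (g • i) j}.ncard ≤
      {j | (shortGraph v).Adj i j}.ncard := by
    intro g i
    have hsub : {j | (shortGraph v).Adj (g • i) j} ⊆ (fun j => g • j) '' {j | (shortGraph v).Adj i j} := by
      intro j hj
      refine ⟨g⁻¹ • j, ?_, smul_inv_smul _ _⟩
      have := shortGraph_smul g⁻¹ _ _ hj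
      rw [inv_smul_smul] at this
      exact this
    exact (Set.ncard_le_ncard hsub (Set.toFinite _)).trans (Set.ncard_image_le (Set.toFinite _))
  have hk' : ∀ i : V, {j | stepRel (shifts v) i j ∧ j ≠ i}.ncard = k := by
    intro i
    rw [hkset i, ← hk]
    apply le_antisymm
    · obtain ⟨g, rfl⟩ := htr i0 i
      exact hle g i0
    · obtain ⟨g, rfl⟩ := htr i i0
      exact hle g i
  refine ⟨?_, ?_⟩
  · intro i r
    have h3 := growth (shifts v) shifts_one shifts_conj i r
    rw [hk' i] at h3
    have e : {j | ∃ w : (shortGraph v).Walk i j, w.length ≤ r} =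
        {w | ball (stepRel (shifts v)) r i w} := by
      ext j
      exact walk_iff_ball hs r i j
    rw [e]
    exact h3
  · obtain ⟨J, B, hB, π, T, b, hb1, hb2, hb3, hT1, hT2, hup, hdown, hJ, hf, hsh⟩ :=
      structure_action (Ω := V) shifts_one shifts_inv shifts_conj hk'
    refine ⟨b, hb2, hb3, J, B, hB, π, T, hb1, hT1, hT2, ?_, ?_, ?_, ?_⟩
    · intro i j
      rw [hJ, reachable_iff hs]
    · intro i j hij
      exact hup i j ((hs i j).2 (Or.inr hij)) hij.1
    · intro i τ hτ
      obtain ⟨j, hj1, hj2, hj3⟩ := hdown i τ hτ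
      rcases (hs i j).1 hj1 with h | h
      · exact absurd h hj2
      · exact ⟨j, h, hj3⟩
    · intro σ hσ
      let g : isoGroup v := ⟨σ, hσ⟩
      refine ⟨fun i j hij => hf g i j hij, fun hσ2 x => ?_⟩
      exact hsh g (subset_closure hσ2) x

end

end Pool.Agent.H62.TD
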