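import Mathlib

/-!
Schur's theorem for a group generated by a finite conjugation invariant set (MP_2fc877_gt).
-/

namespace Pool.Agent.H62.TD

open Subgroup

/-- the bound for the derived group of a group generated by a conjugation invariant set of at most
`κ` elements -/
def schurBound (κ : ℕ) : ℕ :=
  (Finset.range ((κ.factorial) * (κ.factorial) + 1)).sup cardCommutatorBound

theorem index_center_le {Q : Type*} [Group Q] {S : Set Q} (hf : S.Finite)
    (hc : ∀ g : Q, ∀ s ∈ S, g * s * g⁻¹ ∈ S) (hgen : closure S = ⊤) :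
    (center Q).index ≤ S.ncard.factorial ∧ (center Q).index ≠ 0 := by
  classical
  have : Finite S := hf.to_subtype
  -- the conjugation action on `S`
  let act : MulAction Q S :=
    { smul := fun g s => ⟨g * s * g⁻¹, hc g s s.2⟩
      one_smul := fun s => Subtype.ext (by show (1 : Q) * s * 1⁻¹ = s; simp)
      mul_smul := fun g h s => Subtype.ext (by
        show (g * h) * (s : Q) * (g * h)⁻¹ = g * (h * s * h⁻¹) * g⁻¹
        rw [mul_inv_rev]; simp only [mul_assoc]) }
  let φ : Q →* Equiv.Perm S := @MulAction.toPermHom Q S _ act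
  have hφ : ∀ g (s : S), ((φ g s : S) : Q) = g * s * g⁻¹ := fun g s => rfl
  have hker : φ.ker ≤ center Q := by
    intro g hg
    rw [MonoidHom.mem_ker] at hg
    rw [mem_center_iff]
    intro h
    have hh : h ∈ closure S := by rw [hgen]; trivial
    have hcent : closure S ≤ centralizer {g} := by
      rw [closure_le]
      intro s hs
      rw [SetLike.mem_coe, mem_centralizer_iff]
      intro x hx
      rw [Set.mem_singleton_iff] at hx
      subst hx
      have h1 := hφ x ⟨s, hs⟩
      rw [hg] at h1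
      have h2 : s = x * s * x⁻¹ := h1
      calc x * s = (x * s * x⁻¹) * x := by group
        _ = s * x := by rw [← h2]
    have h3 := hcent hh
    rw [mem_centralizer_iff] at h3
    exact (h3 g rfl).symm
  have h1 : φ.ker.index = Nat.card φ.range := by
    rw [Subgroup.index_ker]
  have h2 : Nat.card φ.range ≤ Nat.card (Equiv.Perm S) :=
    Nat.card_le_card_of_injective _ Subtype.val_injective
  have h3 : Nat.card (Equiv.Perm S) = S.ncard.factorial := by
    rw [Nat.card_perm, Nat.card_coe_set_eq]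
  have hfin : φ.ker.FiniteIndex := ⟨by rw [h1]; exact Nat.card_pos.ne'⟩
  refine ⟨?_, ?_⟩
  · calc (center Q).index ≤ φ.ker.index := index_antitone hker
      _ ≤ S.ncard.factorial := by rw [h1, ← h3]; exact h2
  · have := Subgroup.finiteIndex_of_le hker
    exact this.index_ne_zero

theorem card_commutatorSet_le {Q : Type*} [Group Q] (h0 : (center Q).index ≠ 0) :
    Finite (commutatorSet Q) ∧
      Nat.card (commutatorSet Q) ≤ (center Q).index * (center Q).index := by
  classical
  have hfi : (center Q).FiniteIndex := ⟨h0⟩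
  have : Finite (Q ⧸ center Q) := inferInstance
  choose f g hfg using fun c : commutatorSet Q => (mem_commutatorSet_iff.1 c.2)
  let Φ : commutatorSet Q → (Q ⧸ center Q) × (Q ⧸ center Q) := fun c => (f c, g c)
  have hinj : Function.Injective Φ := by
    intro c d hcd
    have h1 : ((f c : Q) : Q ⧸ center Q) = (f d : Q) := congrArg Prod.fst hcd
    have h2 : ((g c : Q) : Q ⧸ center Q) = (g d : Q) := congrArg Prod.snd hcd
    rw [QuotientGroup.eq] at h1 h2
    apply Subtype.ext
    rw [← hfg c, ← hfg d]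
    obtain ⟨z, hz⟩ : ∃ z : Q, f d = f c * z := ⟨(f c)⁻¹ * f d, by group⟩
    obtain ⟨w, hw⟩ : ∃ w : Q, g d = g c * w := ⟨(g c)⁻¹ * g d, by group⟩
    rw [hz, inv_mul_cancel_left] at h1
    rw [hw, inv_mul_cancel_left] at h2
    rw [hz, hw]
    rw [mem_center_iff] at h1 h2
    rw [commutatorElement_def, commutatorElement_def, mul_inv_rev, mul_inv_rev]
    symm
    calc f c * z * (g c * w) * (z⁻¹ * (f c)⁻¹) * (w⁻¹ * (g c)⁻¹)
        = f c * (z * (g c * w)) * (z⁻¹ * (f c)⁻¹) * (w⁻¹ * (g c)⁻¹) := by group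
      _ = f c * ((g c * w) * z) * (z⁻¹ * (f c)⁻¹) * (w⁻¹ * (g c)⁻¹) := by rw [h1 (g c * w)]
      _ = f c * g c * (w * (f c)⁻¹) * (w⁻¹ * (g c)⁻¹) := by group
      _ = f c * g c * ((f c)⁻¹ * w) * (w⁻¹ * (g c)⁻¹) := by rw [h2 (f c)⁻¹]
      _ = f c * g c * (f c)⁻¹ * (g c)⁻¹ := by group
  refine ⟨Finite.of_injective Φ hinj, ?_⟩
  have := Nat.card_le_card_of_injective Φ hinj
  rw [Nat.card_prod] at this
  exact this

theorem card_commutator_le {Q : Type*} [Group Q] {S : Set Q} (hf : S.Finite)
    (hc : ∀ g : Q, ∀ s ∈ S, g * s * g⁻¹ ∈ S) (hgen : closure S = ⊤) {κ : ℕ} (hκ : S.ncard ≤ κ) :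
    Finite (commutator Q) ∧ Nat.card (commutator Q) ≤ schurBound κ := by
  obtain ⟨h1, h2⟩ := index_center_le hf hc hgen
  obtain ⟨h3, h4⟩ := card_commutatorSet_le h2
  refine ⟨inferInstance, ?_⟩
  refine (card_commutator_le_of_finite_commutatorSet Q).trans ?_
  apply Finset.le_sup
  rw [Finset.mem_range]
  have h5 := Nat.factorial_le hκ
  have h6 := Nat.mul_le_mul (h1.trans h5) (h1.trans h5)
  omega

end Pool.Agent.H62.TD
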