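import Pool.Agent.H62.TD.Gap
import Pool.Agent.H62.TD.Schur

/-!
The derived group of the group generated by a small conjugation invariant set has bounded orbits
(MP_2fc877_gt).
-/

namespace Pool.Agent.H62.TD

open Subgroup

variable {G Ω : Type*} [Group G] [MulAction G Ω]

/-- the products of two elements of `S` -/
def sq (S : Set G) : Set G := {a | ∃ s ∈ S, ∃ t ∈ S, s * t = a}

theorem sq_conj {S : Set G} (hc : ∀ g : G, ∀ s ∈ S, g * s * g⁻¹ ∈ S) (g : G) :
    ∀ a ∈ sq S, g * a * g⁻¹ ∈ sq S := by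
  rintro _ ⟨s, hs, t, ht, rfl⟩
  refine ⟨g * s * g⁻¹, hc g s hs, g * t * g⁻¹, hc g t ht, ?_⟩
  group

theorem sq_inv {S : Set G} (hi : ∀ s ∈ S, s⁻¹ ∈ S) : ∀ a ∈ sq S, a⁻¹ ∈ sq S := by
  rintro _ ⟨s, hs, t, ht, rfl⟩
  exact ⟨t⁻¹, hi t ht, s⁻¹, hi s hs, (mul_inv_rev s t).symm⟩

theorem ncard_step_smul [Finite Ω] {S : Set G} (hc : ∀ g : G, ∀ s ∈ S, g * s * g⁻¹ ∈ S) (g : G)
    (x : Ω) : {y | stepRel S (g • x) y}.ncard ≤ {y | stepRel S x y}.ncard := by
  have hsub : {y | stepRel S (g • x) y} ⊆ (fun y => g • y) '' {y | stepRel S x y} := by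
    rintro y ⟨s, hs, rfl⟩
    refine ⟨g⁻¹ • s • g • x, ⟨g⁻¹ * s * g, ?_, ?_⟩, ?_⟩
    · have := hc g⁻¹ s hs
      rw [inv_inv] at this
      exact this
    · rw [mul_smul, mul_smul]
    · exact smul_inv_smul _ _
  exact (Set.ncard_le_ncard hsub (Set.toFinite _)).trans (Set.ncard_image_le (Set.toFinite _))

theorem ncard_step [Finite Ω] [MulAction.IsPretransitive G Ω] {S : Set G}
    (hc : ∀ g : G, ∀ s ∈ S, g * s * g⁻¹ ∈ S) (x y : Ω) :
    {z | stepRel S x z}.ncard = {z | stepRel S y z}.ncard := by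
  apply le_antisymm
  · obtain ⟨g, rfl⟩ := MulAction.exists_smul_eq G y x
    exact ncard_step_smul hc g y
  · obtain ⟨g, rfl⟩ := MulAction.exists_smul_eq G x y
    exact ncard_step_smul hc g x

theorem ncard_sq [Finite Ω] [MulAction.IsPretransitive G Ω] {S : Set G}
    (hc : ∀ g : G, ∀ s ∈ S, g * s * g⁻¹ ∈ S) (x0 : Ω) {κ : ℕ}
    (hκ : {z | stepRel S x0 z}.ncard ≤ κ) : {z | stepRel (sq S) x0 z}.ncard ≤ κ * κ := by
  classical
  have hsub : {z | stepRel (sq S) x0 z} ⊆
      ⋃ y ∈ (Set.toFinite {z | stepRel S x0 z}).toFinset, {z | stepRel S y z} := by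
    rintro z ⟨_, ⟨s, hs, t, ht, rfl⟩, rfl⟩
    simp only [Set.Finite.mem_toFinset, Set.mem_setOf_eq, Set.mem_iUnion, exists_prop]
    exact ⟨t • x0, ⟨t, ht, rfl⟩, s, hs, (mul_smul s t x0).symm⟩
  refine (Set.ncard_le_ncard hsub (Set.toFinite _)).trans ?_
  refine (Finset.set_ncard_biUnion_le _ _).trans ?_
  calc ∑ i ∈ (Set.toFinite {z | stepRel S x0 z}).toFinset, {z | stepRel S i z}.ncard
      ≤ ∑ _i ∈ (Set.toFinite {z | stepRel S x0 z}).toFinset, κ :=
        Finset.sum_le_sum (fun i _ => by rw [ncard_step hc i x0]; exact hκ)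
    _ = {z | stepRel S x0 z}.ncard * κ := by
        rw [Finset.sum_const, smul_eq_mul, Set.ncard_eq_toFinset_card]
    _ ≤ κ * κ := Nat.mul_le_mul_right _ hκ

section comp

variable {r : Ω → Ω → Prop}

theorem ball_symm (hs : ∀ x y, r x y → r y x) : ∀ (n : ℕ) (x y : Ω), ball r n x y → ball r n y x
  | 0, x, y, h => (show x = y from h).symm
  | n + 1, x, y, ⟨z, hz, hz2⟩ => ball_succ' r (ball_symm hs n z y hz2) (hs x z hz)

theorem comp_self (x : Ω) : x ∈ comp r x := ⟨0, rfl⟩

theorem comp_trans {x y z : Ω} (h : y ∈ comp r x) (h2 : z ∈ comp r y) : z ∈ comp r x := by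
  obtain ⟨n, hn⟩ := h
  obtain ⟨m, hm⟩ := h2
  exact ⟨n + m, ball_add r n m x y z hn hm⟩

theorem comp_symm (hs : ∀ x y, r x y → r y x) {x y : Ω} (h : y ∈ comp r x) : x ∈ comp r y := by
  obtain ⟨n, hn⟩ := h
  exact ⟨n, ball_symm hs n x y hn⟩

theorem comp_smul (hinv : ∀ (g : G) x y, r x y → r (g • x) (g • y)) (g : G) {x y : Ω}
    (h : y ∈ comp r x) : g • y ∈ comp r (g • x) := by
  obtain ⟨n, hn⟩ := h
  exact ⟨n, ball_smul r hinv g n x y hn⟩

end comp

/-- the bound for the blocks of the first kind -/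
def blockBound (κ : ℕ) : ℕ := (scale (κ * κ) (κ * κ)) ^ (κ * κ)

theorem scale_le (m : ℕ) {j : ℕ} (h : j ≤ m) : scale m j ^ m ≤ scale m m ^ m :=
  Nat.pow_le_pow_left (scale_mono m h) m

/-- **First step**: there is an invariant relation with bounded classes, such that every product of
two elements of `S` that preserves one class preserves all the classes of the same component. -/
theorem exists_rel [Finite Ω] [MulAction.IsPretransitive G Ω] {S : Set G} (h1 : 1 ∈ S)
    (hi : ∀ s ∈ S, s⁻¹ ∈ S) (hc : ∀ g : G, ∀ s ∈ S, g * s * g⁻¹ ∈ S) (x0 : Ω) {κ : ℕ}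
    (hκ : {z | stepRel S x0 z}.ncard ≤ κ) :
    ∃ r : Ω → Ω → Prop, (∀ x y, r x y → r y x) ∧ (∀ (g : G) x y, r x y → r (g • x) (g • y)) ∧
      (∀ x, (comp r x).ncard ≤ blockBound κ) ∧
      (∀ a ∈ sq S, ∀ z, a • z ∈ comp r z → ∀ g ∈ closure S, a • (g • z) ∈ comp r (g • z)) := by
  classical
  have hA1 : (1 : G) ∈ sq S := ⟨1, h1, 1, h1, one_mul _⟩
  have hSA : S ⊆ sq S := fun s hs => ⟨1, h1, s, hs, one_mul _⟩
  have hAc := sq_conj hc
  have hAi := sq_inv hi
  set m := κ * κ with hm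
  have hAm : {z | stepRel (sq S) x0 z}.ncard ≤ m := ncard_sq hc x0 hκ
  obtain ⟨j, hj, hgap⟩ := exists_gap (m := m) (fun j => {y | perRel (sq S) (scale m j) x0 y})
    (fun j => Set.toFinite _)
    (fun j y hy => perRel_mono (scale_mono m (Nat.le_succ j)) hy)
    (by
      refine le_trans (Set.ncard_le_ncard ?_ (Set.toFinite _)) hAm
      intro y hy
      exact perRel_step hy)
    (by
      rw [Set.ncard_pos (Set.toFinite _)]
      exact ⟨x0, perRel_refl hA1 (scale_pos m 0) x0⟩)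
  set E := scale m j with hE
  set F := scale m (j + 1) with hF
  have hEpos : 0 < E := scale_pos m j
  have hF1 : E * (m + 1) ^ (m * E + 2) ≤ F := Nat.le_add_right _ _
  have hF2 : m * E ^ m ≤ F := Nat.le_add_left _ _
  have hgap0 : ∀ y, perRel (sq S) F x0 y → perRel (sq S) E x0 y := fun y hy => hgap hy
  have hinv : ∀ (g : G) (x y : Ω), perRel (sq S) E x y → perRel (sq S) E (g • x) (g • y) :=
    fun g x y => perRel_smul hAc g x y
  have hsymm : ∀ x y : Ω, perRel (sq S) E x y → perRel (sq S) E y x :=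
    fun x y => perRel_symm hAi
  have hgap' : ∀ x y : Ω, perRel (sq S) F x y → perRel (sq S) E x y := by
    intro x y h
    obtain ⟨g, rfl⟩ := MulAction.exists_smul_eq G x0 x
    have h2 := perRel_smul hAc g⁻¹ _ _ h
    rw [inv_smul_smul] at h2
    have h3 := perRel_smul hAc g _ _ (hgap0 _ h2)
    rw [smul_inv_smul] at h3
    exact h3
  have hcomp : ∀ x : Ω, (comp (perRel (sq S) E) x).ncard ≤ E ^ m := by
    intro x
    refine comp_bound hA1 hAc x ?_ hEpos hF1 (fun y => hgap' x y)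
    rw [ncard_step hAc x x0]
    exact hAm
  refine ⟨perRel (sq S) E, hsymm, hinv, fun x => (hcomp x).trans (scale_le m hj.le), ?_⟩
  -- the second claim
  have hstep : ∀ a ∈ sq S, ∀ w : Ω, a • w ∈ comp (perRel (sq S) E) w → ∀ t ∈ S,
      a • (t • w) ∈ comp (perRel (sq S) E) (t • w) := by
    intro a ha w hw t ht
    have hper : Per (E ^ m) a w := by
      refine per_of_mapsTo (K := comp (perRel (sq S) E) w) (Set.toFinite _) (hcomp w) ?_ (comp_self w)
      intro u hu
      exact comp_trans hw (comp_smul hinv a hu)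
    have hper2 : Per F a (t • w) := by
      have h3 := hper.step hAc (m := m) (x := w) (by rw [ncard_step hAc w x0]; exact hAm)
        (y := t • w) ⟨t, hSA ht, rfl⟩
      refine h3.mono ?_
      rw [mul_comm]
      exact hF2
    have h4 : perRel (sq S) E (t • w) (a • (t • w)) := hgap' _ _ ⟨a, ha, rfl, hper2⟩
    exact ⟨1, a • (t • w), h4, rfl⟩
  intro a ha z hz g hg
  induction hg using closure_induction_left with
  | one => rw [one_smul]; exact hz
  | mul_left t ht g hg ih => rw [mul_smul]; exact hstep a ha _ ih t ht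
  | inv_mul_cancel t ht g hg ih => rw [mul_smul]; exact hstep a ha _ ih _ (hi t ht)

/-- the bound for the orbits of the derived group -/
def orbBound (κ : ℕ) : ℕ := schurBound κ * blockBound κ

/-- **The derived group of `⟨S⟩` has bounded orbits.** -/
theorem derived_orbit [Finite Ω] [MulAction.IsPretransitive G Ω] {S : Set G} (h1 : 1 ∈ S)
    (hi : ∀ s ∈ S, s⁻¹ ∈ S) (hc : ∀ g : G, ∀ s ∈ S, g * s * g⁻¹ ∈ S) (x0 : Ω) {κ : ℕ}
    (hκ : {z | stepRel S x0 z}.ncard ≤ κ) :
    (MulAction.orbit (⁅closure S, closure S⁆ : Subgroup G) x0).ncard ≤ orbBound κ := by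
  classical
  obtain ⟨r, hsymm, hinv, hcomp, hfix⟩ := exists_rel h1 hi hc x0 hκ
  set G0 : Subgroup G := closure S with hG0
  -- the kernel on the classes of the component of `x0`
  let N : Subgroup G0 :=
    { carrier := {g | ∀ h : G0, (g : G) • ((h : G) • x0) ∈ comp r ((h : G) • x0)}
      one_mem' := fun h => by
        rw [OneMemClass.coe_one, one_smul]; exact comp_self _
      mul_mem' := by
        intro a b ha hb h
        rw [Subgroup.coe_mul, mul_smul]
        have h2 := comp_smul hinv (a : G) (hb h)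
        exact comp_trans (ha h) h2
      inv_mem' := by
        intro a ha h
        have h2 := comp_symm hsymm (comp_smul hinv (a⁻¹ : G) (ha h))
        rw [inv_smul_smul] at h2
        rw [Subgroup.coe_inv]
        exact h2 }
  have hN : N.Normal := by
    constructor
    intro n hn g h
    have h2 := comp_smul hinv (g : G) (hn (g⁻¹ * h))
    rw [Subgroup.coe_mul, Subgroup.coe_inv, mul_smul, smul_inv_smul] at h2
    rw [Subgroup.coe_mul, Subgroup.coe_mul, Subgroup.coe_inv, mul_smul, mul_smul]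
    exact h2
  let Q := G0 ⧸ N
  let π : G0 →* Q := QuotientGroup.mk' N
  let Sbar : Set Q := π '' {g : G0 | (g : G) ∈ S}
  have hπsurj : Function.Surjective π := QuotientGroup.mk'_surjective N
  -- two elements of `S` with the same value at `x0` agree in `Q`
  have hagree : ∀ s t : G0, (s : G) ∈ S → (t : G) ∈ S → (s : G) • x0 = (t : G) • x0 → π s = π t := by
    intro s t hs ht hst
    rw [QuotientGroup.mk'_eq_mk']
    refine ⟨s⁻¹ * t, ?_, by group⟩
    intro h
    have ha : ((s : G)⁻¹ * (t : G)) ∈ sq S := ⟨(s : G)⁻¹, hi _ hs, t, ht, rfl⟩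
    have hz : ((s : G)⁻¹ * (t : G)) • x0 ∈ comp r x0 := by
      rw [mul_smul, ← hst, inv_smul_smul]; exact comp_self _
    have := hfix _ ha x0 hz h h.2
    exact this
  have hSfin : Sbar.Finite ∧ Sbar.ncard ≤ κ := by
    let f : Ω → Q := fun y =>
      if h : ∃ s : G0, (s : G) ∈ S ∧ (s : G) • x0 = y then π h.choose else 1
    have hsub : Sbar ⊆ f '' {z | stepRel S x0 z} := by
      rintro _ ⟨s, hs, rfl⟩
      have hs : (s : G) ∈ S := hs
      refine ⟨(s : G) • x0, ⟨s, hs, rfl⟩, ?_⟩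
      have hex : ∃ t : G0, (t : G) ∈ S ∧ (t : G) • x0 = (s : G) • x0 := ⟨s, hs, rfl⟩
      show (if h : ∃ t : G0, (t : G) ∈ S ∧ (t : G) • x0 = (s : G) • x0 then π h.choose else 1) = π s
      rw [dif_pos hex]
      exact hagree _ _ hex.choose_spec.1 hs hex.choose_spec.2
    have hfin : (f '' {z | stepRel S x0 z}).Finite := Set.toFinite _
    refine ⟨hfin.subset hsub, ?_⟩
    exact (Set.ncard_le_ncard hsub hfin).trans ((Set.ncard_image_le (Set.toFinite _)).trans hκ)
  have hSc : ∀ g : Q, ∀ s ∈ Sbar, g * s * g⁻¹ ∈ Sbar := by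
    rintro g _ ⟨s, hs, rfl⟩
    obtain ⟨g, rfl⟩ := hπsurj g
    refine ⟨g * s * g⁻¹, ?_, by rw [map_mul, map_mul, map_inv]⟩
    exact hc g s hs
  have hSgen : closure Sbar = ⊤ := by
    rw [eq_top_iff]
    rintro g -
    obtain ⟨g, rfl⟩ := hπsurj g
    obtain ⟨g, hg⟩ := g
    -- induction over the generation
    have key : ∀ (g : G) (hg : g ∈ closure S), π ⟨g, hg⟩ ∈ closure Sbar := by
      intro g hg
      induction hg using closure_induction with
      | mem x hx => exact subset_closure ⟨⟨x, _⟩, hx, rfl⟩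
      | one => exact one_mem _
      | mul x y hx hy ihx ihy =>
        have e : π ⟨x * y, mul_mem hx hy⟩ = π ⟨x, hx⟩ * π ⟨y, hy⟩ := by
          rw [← map_mul]; rfl
        rw [e]
        exact mul_mem ihx ihy
      | inv x hx ih =>
        have e : π ⟨x⁻¹, inv_mem hx⟩ = (π ⟨x, hx⟩)⁻¹ := by
          rw [← map_inv]; rfl
        rw [e]
        exact inv_mem ih
    exact key g hg
  obtain ⟨hQfin, hQcard⟩ := card_commutator_le hSfin.1 hSc hSgen hSfin.2
  -- the orbit
  choose lift hlift using hπsurj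
  let Φ : (commutator Q) × Ω → Ω := fun p => ((lift (p.1 : Q) : G0) : G) • p.2
  have hsub : MulAction.orbit (⁅G0, G0⁆ : Subgroup G) x0 ⊆
      Φ '' (Set.univ ×ˢ comp r x0) := by
    rintro _ ⟨⟨g, hg⟩, rfl⟩
    have hg0 : g ∈ G0 := by
      have : (⁅G0, G0⁆ : Subgroup G) ≤ G0 := by
        rw [commutator_le]
        intro a ha b hb
        exact mul_mem (mul_mem (mul_mem ha hb) (inv_mem ha)) (inv_mem hb)
      exact this hg
    have hgc : (⟨g, hg0⟩ : G0) ∈ commutator G0 := by
      have e : (commutator G0).map G0.subtype = ⁅G0, G0⁆ := by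
        rw [commutator_def, map_commutator, ← MonoidHom.range_eq_map, Subgroup.range_subtype]
      have h5 : g ∈ (commutator G0).map G0.subtype := by rw [e]; exact hg
      obtain ⟨h, hh, hhg⟩ := h5
      have : h = ⟨g, hg0⟩ := Subtype.ext hhg
      rwa [← this]
    have hπg : π ⟨g, hg0⟩ ∈ commutator Q := by
      have h6 : (commutator G0).map π ≤ commutator Q := by
        rw [commutator_def, commutator_def, map_commutator]
        exact commutator_mono le_top le_top
      exact h6 ⟨_, hgc, rfl⟩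
    set c : Q := π ⟨g, hg0⟩ with hcdef
    have h7 : (lift c)⁻¹ * ⟨g, hg0⟩ ∈ N := by
      have := hlift c
      rw [hcdef, QuotientGroup.mk'_eq_mk'] at this
      obtain ⟨z, hz, hz2⟩ := this
      rw [← hz2, inv_mul_cancel_left]
      exact hz
    have h8 := h7 1
    rw [OneMemClass.coe_one, one_smul] at h8
    refine ⟨(⟨c, hπg⟩, ((lift c : G0) : G)⁻¹ • g • x0), ⟨Set.mem_univ _, ?_⟩, ?_⟩
    · rw [← mul_smul]
      exact h8
    · show ((lift c : G0) : G) • ((lift c : G0) : G)⁻¹ • g • x0 = g • x0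
      rw [smul_inv_smul]
  have hfinc : (Set.univ ×ˢ comp r x0 : Set ((commutator Q) × Ω)).Finite := Set.toFinite _
  refine (Set.ncard_le_ncard hsub (Set.toFinite _)).trans ?_
  refine (Set.ncard_image_le hfinc).trans ?_
  rw [Set.ncard_prod, Set.ncard_univ]
  exact Nat.mul_le_mul hQcard (hcomp x0)

end Pool.Agent.H62.TD
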