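import Pool.Agent.H62.TD.App

/-!
Trivial blocks: circulant models (MP_2fc877_gt).
-/

namespace Pool.Agent.H62.TD

open Pool.Agent.H89.TDS

variable {V E : Type} [MetricSpace E] {v : V → E}

theorem blocks_dvd [Finite V] [Nonempty V] {b k : ℕ} (hb : 0 < b) (h : HasAbelianBlocks v b k) :
    b ∣ Nat.card V := by
  classical
  obtain ⟨J, B, hB, π, T, h1, -⟩ := h
  have hsurj : Function.Surjective π := by
    intro p
    have h2 : (π ⁻¹' {p}).Nonempty := by
      rw [← Set.ncard_pos (Set.toFinite _), h1 p]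
      exact hb
    exact h2
  have hfin : Finite (J × B) := Finite.of_surjective π hsurj
  have : Fintype (J × B) := Fintype.ofFinite _
  have : Fintype V := Fintype.ofFinite _
  have e := Nat.card_congr (Equiv.sigmaFiberEquiv π)
  rw [← e, Nat.card_sigma]
  have h3 : ∀ p : J × B, Nat.card {x // π x = p} = b := by
    intro p
    rw [← h1 p, ← Nat.card_coe_set_eq]
    rfl
  simp only [h3]
  rw [Finset.sum_const, smul_eq_mul]
  exact Dvd.intro_left _ rfl

theorem exists_circulant_of_blocks [Finite V] [Nonempty V] (hv : Function.Injective v)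
    (h2 : IsTwoDistance (Set.range v)) {k : ℕ} (h : HasAbelianBlocks v 1 k) :
    ∃ (B : Type) (_ : AddCommGroup B) (S : Set B) (e : B ≃ V) (c t : ℝ),
      SimpleGraph.circulantGraph S ≠ ⊥ ∧ SimpleGraph.circulantGraph S ≠ ⊤ ∧ 0 < c ∧ 1 < t ∧
      Follows (SimpleGraph.circulantGraph S) c t (fun p => v (e p)) := by
  classical
  obtain ⟨J, B, hB, π, T, h1, -, -, -, hup, hdown, -⟩ := h
  have hsurj : Function.Surjective π := by
    intro p
    have h2 : (π ⁻¹' {p}).Nonempty := by
      rw [← Set.ncard_pos (Set.toFinite _), h1 p]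
      exact one_pos
    exact h2
  have hinj : Function.Injective π := by
    intro x y hxy
    obtain ⟨z, hz⟩ := Set.ncard_eq_one.1 (h1 (π x))
    have hx : x ∈ π ⁻¹' {π x} := rfl
    have hy : y ∈ π ⁻¹' {π x} := hxy.symm
    rw [hz] at hx hy
    rw [Set.mem_singleton_iff] at hx hy
    rw [hx, hy]
  have hfin : Finite (J × B) := Finite.of_surjective π hsurj
  obtain ⟨x₀⟩ := (inferInstance : Nonempty V)
  have hJfin : Finite J := Finite.of_surjective (Prod.fst : J × B → J) (fun j => ⟨(j, 0), rfl⟩)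
  have hJne : Nonempty J := ⟨(π x₀).1⟩
  have hN0 : Nat.card J ≠ 0 := Nat.card_pos.ne'
  have : NeZero (Nat.card J) := ⟨hN0⟩
  let eJ : ZMod (Nat.card J) ≃ J := (Finite.equivFin _).trans ((finCongr (Nat.card_zmod _)).trans
    (Finite.equivFin J).symm)
  let e0 : V ≃ J × B := Equiv.ofBijective π ⟨hinj, hsurj⟩
  let e : (ZMod (Nat.card J)) × B ≃ V := (Equiv.prodCongr eJ (Equiv.refl B)).trans e0.symm
  have he : ∀ p, π (e p) = (eJ p.1, p.2) := by
    intro p
    exact e0.apply_symm_apply (eJ p.1, p.2)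
  let S : Set ((ZMod (Nat.card J)) × B) := {p | p.1 = 0 ∧ p.2 ∈ T}
  have key : ∀ p q : (ZMod (Nat.card J)) × B, q - p ∈ S → (shortGraph v).Adj (e p) (e q) := by
    rintro p q ⟨hs1, hs2⟩
    obtain ⟨j, hj1, hj2⟩ := hdown (e p) _ hs2
    have : j = e q := by
      apply hinj
      rw [hj2, he, he]
      apply Prod.ext
      · show eJ p.1 = eJ q.1
        rw [sub_eq_zero.1 (show q.1 - p.1 = 0 from hs1)]
      · show p.2 + (q.2 - p.2) = q.2
        exact add_sub_cancel _ _
    rw [← this]
    exact hj1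
  have hadj : ∀ p q, (SimpleGraph.circulantGraph S).Adj p q ↔ (shortGraph v).Adj (e p) (e q) := by
    intro p q
    rw [SimpleGraph.circulantGraph_adj]
    constructor
    · rintro ⟨-, h | h⟩
      · exact (key q p h).symm
      · exact key p q h
    · intro h
      refine ⟨fun h0 => h.1 (congrArg e h0), Or.inr ?_⟩
      obtain ⟨τ, hτ, hq⟩ := hup _ _ h
      rw [he, he] at hq
      have hq1 : eJ q.1 = eJ p.1 := congrArg Prod.fst hq
      have hq2 : q.2 = p.2 + τ := congrArg Prod.snd hq
      refine ⟨?_, ?_⟩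
      · show q.1 - p.1 = 0
        rw [eJ.injective hq1, sub_self]
      · show q.2 - p.2 ∈ T
        rw [hq2, add_sub_cancel_left]
        exact hτ
  -- distances
  obtain ⟨a, b, hab, ⟨x1, y1, hxy1, hd1⟩, ⟨x2, y2, hxy2, hd2⟩, hall⟩ := h2
  have hall' : ∀ i j : V, i ≠ j → dist (v i) (v j) = a ∨ dist (v i) (v j) = b := by
    intro i j hij
    exact hall ⟨v i, Set.mem_range_self i⟩ ⟨v j, Set.mem_range_self j⟩
      (fun h0 => hij (hv (congrArg Subtype.val h0)))
  have ha : 0 < a := by
    rw [← hd1]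
    exact dist_pos.2 hxy1
  obtain ⟨i1, hi1⟩ := x1.2
  obtain ⟨j1, hj1⟩ := y1.2
  obtain ⟨i2, hi2⟩ := x2.2
  obtain ⟨j2, hj2⟩ := y2.2
  have hne1 : i1 ≠ j1 := by
    intro h0
    apply hxy1
    apply Subtype.ext
    rw [← hi1, ← hj1, h0]
  have hne2 : i2 ≠ j2 := by
    intro h0
    apply hxy2
    apply Subtype.ext
    rw [← hi2, ← hj2, h0]
  have hd1' : dist (v i1) (v j1) = a := by rw [hi1, hj1]; exact hd1
  have hd2' : dist (v i2) (v j2) = b := by rw [hi2, hj2]; exact hd2
  have hadj2 : ∀ i j : V, (shortGraph v).Adj i j ↔ i ≠ j ∧ dist (v i) (v j) = a := by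
    intro i j
    constructor
    · rintro ⟨hij, h⟩
      refine ⟨hij, ?_⟩
      rcases hall' i j hij with h0 | h0
      · exact h0
      · have := h i1 j1 hne1
        rw [hd1', h0] at this
        linarith
    · rintro ⟨hij, h⟩
      refine ⟨hij, fun p q hpq => ?_⟩
      rcases hall' p q hpq with h0 | h0
      · rw [h, h0]
      · rw [h, h0]; exact hab.le
  refine ⟨(ZMod (Nat.card J)) × B, inferInstance, S, e, a, b / a, ?_, ?_, ha, (one_lt_div ha).2 hab, ?_⟩
  · intro h0
    have h3 : (SimpleGraph.circulantGraph S).Adj (e.symm i1) (e.symm j1) := by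
      rw [hadj, e.apply_symm_apply, e.apply_symm_apply, hadj2]
      exact ⟨hne1, hd1'⟩
    rw [h0] at h3
    exact h3
  · intro h0
    have h3 : ¬ (SimpleGraph.circulantGraph S).Adj (e.symm i2) (e.symm j2) := by
      rw [hadj, e.apply_symm_apply, e.apply_symm_apply, hadj2]
      rintro ⟨-, h⟩
      rw [hd2'] at h
      exact hab.ne' h
    rw [h0] at h3
    apply h3
    rw [SimpleGraph.top_adj]
    intro h4
    exact hne2 (e.symm.injective h4)
  · intro p q hpq
    have hne : e p ≠ e q := fun h0 => hpq (e.injective h0)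
    refine ⟨fun h => ?_, fun h => ?_⟩
    · rw [hadj, hadj2] at h
      exact h.2
    · rw [hadj, hadj2] at h
      rcases hall' _ _ hne with h0 | h0
      · exact absurd ⟨hne, h0⟩ h
      · rw [h0]
        field_simp

end Pool.Agent.H62.TD
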