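import Pool.Agent.H62.TD.NF

/-!
Counting with the normal form (MP_2fc877_gt).
-/

namespace Pool.Agent.H62.TD

variable {G Ω : Type*} [Group G] [MulAction G Ω]

theorem exists_exact (r : Ω → Ω → Prop) {n : ℕ} {x y : Ω} (h : ball r n x y) :
    ∃ m ≤ n, ball r m x y ∧ ∀ k < m, ¬ ball r k x y := by
  classical
  have hex : ∃ m, ball r m x y := ⟨n, h⟩
  exact ⟨Nat.find hex, Nat.find_min' hex h, Nat.find_spec hex, fun k hk => Nat.find_min hex hk⟩

/-- the normal form with exponents over a finite index type -/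
theorem normalForm_univ {ι : Type*} [Fintype ι] [DecidableEq ι] (r : Ω → Ω → Prop)
    (hrefl : ∀ x, r x x)
    (hinv : ∀ (g : G) x y, r x y → r (g • x) (g • y)) (x0 : Ω) (b : ι → G)
    (hcov : ∀ y, r x0 y → y = x0 ∨ ∃ i, b i • x0 = y) (ρ : ℕ)
    (hP : ∀ u, ball r ρ x0 u → ∀ i, r u (b i • u))
    (hQ : ∀ u, ball r ρ x0 u → ∀ i j, r u (((b j)⁻¹ * b i * b j) • u)) (w : Ω) (n : ℕ)
    (hn : n ≤ ρ + 1) (hw : ball r n x0 w) (hex : ∀ m < n, ¬ ball r m x0 w) :
    ∃ a : ι → ℕ, ((Finset.univ : Finset ι).toList.map (fun i => b i ^ a i)).prod • x0 = w ∧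
      ∑ i, a i = n ∧ ∀ i, ∀ e, 0 < e → (b i) ^ e • x0 = x0 → a i < e := by
  obtain ⟨a, h1, h2, h3⟩ := normalForm r hrefl hinv x0 b hcov ρ hP hQ (Finset.univ : Finset ι).toList
    (Finset.nodup_toList _) w n hn hw hex (fun i => Or.inl (by simp))
  refine ⟨a, h1, ?_, fun i => h3 i (by simp)⟩
  rw [← h2, Finset.sum_map_toList]

/-- **Growth**: if all the admissibility conditions hold everywhere, a ball of radius `n` has at most
`(q + n).choose n` points, `q` the number of generators. -/
theorem ball_ncard {ι : Type*} [Fintype ι] (r : Ω → Ω → Prop)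
    (hrefl : ∀ x, r x x)
    (hinv : ∀ (g : G) x y, r x y → r (g • x) (g • y)) (x0 : Ω) (b : ι → G)
    (hcov : ∀ y, r x0 y → y = x0 ∨ ∃ i, b i • x0 = y)
    (hP : ∀ u i, r u (b i • u))
    (hQ : ∀ u i j, r u (((b j)⁻¹ * b i * b j) • u)) (n : ℕ) :
    {w | ball r n x0 w}.Finite ∧ {w | ball r n x0 w}.ncard ≤ (Fintype.card ι + n).choose n := by
  classical
  let F : Sym (Option ι) n → Ω := fun s =>
    ((Finset.univ : Finset ι).toList.map (fun i => b i ^ ((s : Multiset (Option ι)).count (some i)))).prod • x0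
  have hsub : {w | ball r n x0 w} ⊆ Set.range F := by
    intro w hw
    obtain ⟨m, hm, hb, hex⟩ := exists_exact r hw
    obtain ⟨a, h1, h2, -⟩ := normalForm_univ r hrefl hinv x0 b hcov m (fun u _ i => hP u i)
      (fun u _ i j => hQ u i j) w m (by omega) hb hex
    let M : Multiset (Option ι) := (∑ i, a i • ({some i} : Multiset (Option ι))) +
      (n - m) • ({none} : Multiset (Option ι))
    have hcard : Multiset.card M = n := by
      have e : Multiset.card (∑ i, a i • ({some i} : Multiset (Option ι))) = m := by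
        rw [Multiset.card_sum]
        simp [h2]
      show Multiset.card (_ + _) = n
      rw [Multiset.card_add, e]
      simp
      omega
    have hcount : ∀ j, M.count (some j) = a j := by
      intro j
      show Multiset.count (some j) (_ + _) = a j
      rw [Multiset.count_add, Multiset.count_sum']
      simp [Multiset.count_nsmul, Multiset.count_singleton]
    refine ⟨⟨M, hcard⟩, ?_⟩
    show ((Finset.univ : Finset ι).toList.map (fun i => b i ^ (M.count (some i)))).prod • x0 = w
    simp only [hcount]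
    exact h1
  have hfin : (Set.range F).Finite := Set.finite_range F
  refine ⟨hfin.subset hsub, ?_⟩
  refine (Set.ncard_le_ncard hsub hfin).trans ?_
  have h1 : (Set.range F).ncard ≤ Nat.card (Sym (Option ι) n) := by
    rw [← Nat.card_coe_set_eq]
    exact Nat.card_le_card_of_surjective (Set.rangeFactorization F) Set.rangeFactorization_surjective
  refine h1.trans ?_
  rw [Nat.card_eq_fintype_card, Sym.card_sym_eq_choose, Fintype.card_option]
  have : Fintype.card ι + 1 + n - 1 = Fintype.card ι + n := by omega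
  rw [this]

/-- representatives of the nontrivial neighbours of `x0` -/
theorem exists_reps [Finite Ω] (T : Set G) (x0 : Ω) :
    ∃ (q : ℕ) (b : Fin q → G), (∀ i, b i ∈ T) ∧ q = {y | (∃ s ∈ T, s • x0 = y) ∧ y ≠ x0}.ncard ∧
      ∀ y, (∃ s ∈ T, s • x0 = y) → y = x0 ∨ ∃ i, b i • x0 = y := by
  classical
  have : Fintype Ω := Fintype.ofFinite Ω
  set N : Set Ω := {y | (∃ s ∈ T, s • x0 = y) ∧ y ≠ x0} with hN
  have hfin : N.Finite := Set.toFinite N
  have e : N ≃ Fin N.ncard := by
    have := hfin.to_subtype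
    rw [← Nat.card_coe_set_eq]
    exact Finite.equivFin N
  choose f hf1 hf2 using fun y : N => y.2.1
  refine ⟨N.ncard, fun i => f (e.symm i), fun i => hf1 _, rfl, ?_⟩
  intro y hy
  by_cases hyx : y = x0
  · exact Or.inl hyx
  · right
    refine ⟨e ⟨y, hy, hyx⟩, ?_⟩
    show f (e.symm (e ⟨y, hy, hyx⟩)) • x0 = y
    rw [Equiv.symm_apply_apply]
    exact hf2 _

/-- the relation of being moved by an element of `S` -/
def stepRel (S : Set G) (x y : Ω) : Prop := ∃ s ∈ S, s • x = y

/-- **Growth for conjugation invariant sets.** -/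
theorem growth [Finite Ω] (S : Set G) (h1 : 1 ∈ S) (hc : ∀ g : G, ∀ s ∈ S, g * s * g⁻¹ ∈ S) (x0 : Ω)
    (n : ℕ) :
    {w | ball (stepRel S) n x0 w}.ncard ≤
      ({y | stepRel S x0 y ∧ y ≠ x0}.ncard + n).choose n := by
  obtain ⟨q, b, hb, hq, hcov⟩ := exists_reps S x0
  have hinv : ∀ (g : G) (x y : Ω), stepRel S x y → stepRel S (g • x) (g • y) := by
    rintro g x y ⟨s, hs, rfl⟩
    exact ⟨g * s * g⁻¹, hc g s hs, by rw [mul_smul, inv_smul_smul, mul_smul]⟩
  have := (ball_ncard (stepRel S) (fun x => ⟨1, h1, one_smul _ _⟩) hinv x0 b hcov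
    (fun u i => ⟨b i, hb i, rfl⟩)
    (fun u i j => ⟨_, by
      have := hc (b j)⁻¹ (b i) (hb i)
      rw [inv_inv] at this
      exact this, rfl⟩) n).2
  rw [Fintype.card_fin, hq] at this
  exact this

end Pool.Agent.H62.TD
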