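import Pool.Agent.H62.TD.Class

/-!
Final assembly for the bounded valency theorem (MP_2fc877_gt).
-/

namespace Pool.Agent.H62.TD

open Pool.Agent.H89.TDS

section

variable {V W E : Type} [MetricSpace E]

theorem short_of_follows {Γ : SimpleGraph V} {c t : ℝ} {v : V → E} (h : Follows Γ c t v) (hc : 0 < c)
    (ht : 1 < t) (hb : Γ ≠ ⊥) (p q : V) : (shortGraph v).Adj p q ↔ Γ.Adj p q := by
  have hct : c < c * t := by nlinarith
  constructor
  · rintro ⟨hpq, hmin⟩
    by_contra hno
    obtain ⟨x, y, hxy⟩ : ∃ x y, Γ.Adj x y := by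
      by_contra hcon
      push Not at hcon
      apply hb
      ext x y
      simp [hcon x y]
    have h1 := hmin x y hxy.ne
    rw [(h x y hxy.ne).1 hxy, (h p q hpq).2 hno] at h1
    linarith
  · intro hadj
    refine ⟨hadj.ne, fun x y hxy => ?_⟩
    rw [(h p q hadj.ne).1 hadj]
    by_cases h2 : Γ.Adj x y
    · rw [(h x y hxy).1 h2]
    · rw [(h x y hxy).2 h2]
      exact hct.le

theorem short_comp (v : W → E) (e : V ≃ W) (p q : V) :
    (shortGraph (fun x => v (e x))).Adj p q ↔ (shortGraph v).Adj (e p) (e q) := by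
  constructor
  · rintro ⟨h1, h2⟩
    refine ⟨fun h0 => h1 (e.injective h0), fun x y hxy => ?_⟩
    have := h2 (e.symm x) (e.symm y) (fun h0 => hxy (e.symm.injective h0))
    simpa using this
  · rintro ⟨h1, h2⟩
    exact ⟨fun h0 => h1 (congrArg e h0), fun x y hxy => h2 _ _ (fun h0 => hxy (e.injective h0))⟩

theorem circulant_valency {B : Type} [AddCommGroup B] {S : Set B} {c t : ℝ} {v : W → E} (e : B ≃ W)
    (h : Follows (SimpleGraph.circulantGraph S) c t (fun x => v (e x))) (hc : 0 < c) (ht : 1 < t)
    (hb : SimpleGraph.circulantGraph S ≠ ⊥) (i : W) :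
    {j | (shortGraph v).Adj i j}.ncard = ((S ∪ -S) \ {0}).ncard := by
  have e1 : {j | (shortGraph v).Adj i j} = (fun s => e (e.symm i + s)) '' ((S ∪ -S) \ {0}) := by
    ext j
    have h1 : (shortGraph v).Adj i j ↔ (SimpleGraph.circulantGraph S).Adj (e.symm i) (e.symm j) := by
      rw [← short_of_follows h hc ht hb, short_comp, e.apply_symm_apply, e.apply_symm_apply]
    rw [Set.mem_ofPred_eq, h1, SimpleGraph.circulantGraph_adj]
    constructor
    · rintro ⟨hne, h2⟩
      refine ⟨e.symm j - e.symm i, ⟨?_, ?_⟩, ?_⟩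
      · rcases h2 with h2 | h2
        · right
          rw [Set.mem_neg, neg_sub]
          exact h2
        · left; exact h2
      · rw [Set.mem_singleton_iff, sub_eq_zero]
        exact fun h0 => hne h0.symm
      · show e (e.symm i + (e.symm j - e.symm i)) = j
        rw [add_sub_cancel, e.apply_symm_apply]
    · rintro ⟨s, ⟨hs, hs0⟩, rfl⟩
      rw [e.symm_apply_apply]
      refine ⟨fun h0 => hs0 ?_, ?_⟩
      · rw [Set.mem_singleton_iff]
        have := h0.symm
        rwa [add_eq_left] at this
      · rcases hs with h2 | h2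
        · right
          rw [add_sub_cancel_left]
          exact h2
        · left
          rw [sub_add_cancel_left]
          exact h2
  rw [e1]
  apply Set.ncard_image_of_injective
  intro a b hab
  exact add_left_cancel (e.injective hab)

end

theorem bounded_valency : ∃ C : ℕ → ℕ,
    (∀ (n k : ℕ) (v : Fin (n + 1) → EuclideanSpace ℝ (Fin n)), AffineIndependent ℝ v →
      IsTwoDistance (Set.range v) → IsNormalHomogeneous (Set.range v) →
      {j | (shortGraph v).Adj 0 j}.ncard = k →
      (∀ i r, {j | ∃ w : (shortGraph v).Walk i j, w.length ≤ r}.ncard ≤ (k + r).choose r) ∧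
      ∃ b, b ∣ n + 1 ∧ b ≤ C k ∧ HasAbelianBlocks v b k) ∧
    (∀ n k : ℕ, (∀ p, p.Prime → p ∣ n + 1 → C k < p) →
      ∀ v : Fin (n + 1) → EuclideanSpace ℝ (Fin n), AffineIndependent ℝ v →
      IsTwoDistance (Set.range v) → {j | (shortGraph v).Adj 0 j}.ncard = k →
      (IsNormalHomogeneous (Set.range v) ↔ IsCWHomogeneous (Set.range v)) ∧
      (IsNormalHomogeneous (Set.range v) ↔
        ∃ (B : Type) (_ : AddCommGroup B) (S : Set B) (e : B ≃ Fin (n + 1)) (c t : ℝ),
          0 < c ∧ CharAdmissible S t ∧
          Follows (SimpleGraph.circulantGraph S) c t (fun x => v (e x)))) ∧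
    (∀ (n : ℕ) (B : Type) [AddCommGroup B] (S : Set B) (e : B ≃ Fin (n + 1)) (c t : ℝ),
      SimpleGraph.circulantGraph S ≠ ⊥ → SimpleGraph.circulantGraph S ≠ ⊤ → 0 < c →
      CharAdmissible S t → ∃ v : Fin (n + 1) → EuclideanSpace ℝ (Fin n),
        AffineIndependent ℝ v ∧ IsTwoDistance (Set.range v) ∧ IsCWHomogeneous (Set.range v) ∧
        IsNormalHomogeneous (Set.range v) ∧
        Follows (SimpleGraph.circulantGraph S) c t (fun x => v (e x)) ∧
        {j | (shortGraph v).Adj 0 j}.ncard = ((S ∪ -S) \ {0}).ncard) := by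
  have hpart : ∀ (n k : ℕ) (v : Fin (n + 1) → EuclideanSpace ℝ (Fin n)), AffineIndependent ℝ v →
      IsTwoDistance (Set.range v) → IsNormalHomogeneous (Set.range v) →
      {j | (shortGraph v).Adj 0 j}.ncard = k →
      (∀ i r, {j | ∃ w : (shortGraph v).Walk i j, w.length ≤ r}.ncard ≤ (k + r).choose r) ∧
      ∃ b, b ∣ n + 1 ∧ b ≤ orbBound (k + 1) ∧ HasAbelianBlocks v b k := by
    intro n k v hv h2 hN hk
    obtain ⟨h3, b, hb, hbC, hB⟩ := growth_structure hv.injective h2 hN 0 hk
    refine ⟨h3, b, ?_, hbC, hB⟩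
    have := blocks_dvd hb hB
    rwa [Nat.card_eq_fintype_card, Fintype.card_fin] at this
  refine ⟨fun k => orbBound (k + 1), hpart, ?_, ?_⟩
  · intro n k hp v hv h2 hk
    have : Finite (Set.range v) := Set.finite_range v
    have : Nonempty (Set.range v) := ⟨⟨v 0, Set.mem_range_self _⟩⟩
    have hfwd : IsNormalHomogeneous (Set.range v) →
        ∃ (B : Type) (_ : AddCommGroup B) (S : Set B) (e : B ≃ Fin (n + 1)) (c t : ℝ),
          0 < c ∧ CharAdmissible S t ∧
          Follows (SimpleGraph.circulantGraph S) c t (fun x => v (e x)) := by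
      intro hN
      obtain ⟨-, b, hb1, hb2, hB⟩ := hpart n k v hv h2 hN hk
      have hb : b = 1 := by
        by_contra hne
        obtain ⟨p, hp1, hp2⟩ := Nat.exists_prime_and_dvd hne
        have h3 := hp p hp1 (hp2.trans hb1)
        have hbpos : 0 < b := Nat.pos_of_dvd_of_pos hb1 (Nat.succ_pos n)
        have h4 := Nat.le_of_dvd hbpos hp2
        have h5 : orbBound (k + 1) < p := h3
        omega
      subst hb
      obtain ⟨B, hB', S, e, c, t, hbot, htop, hc, ht, hF⟩ :=
        exists_circulant_of_blocks hv.injective h2 hB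
      have : Finite B := Finite.of_equiv _ e.symm
      refine ⟨B, hB', S, e, c, t, hc, ?_, hF⟩
      rw [← charAdmissible_iff, ← affine_iff_admissible_circulant hF hc ht]
      exact hv.comp_embedding e.toEmbedding
    have hback : (∃ (B : Type) (_ : AddCommGroup B) (S : Set B) (e : B ≃ Fin (n + 1)) (c t : ℝ),
          0 < c ∧ CharAdmissible S t ∧
          Follows (SimpleGraph.circulantGraph S) c t (fun x => v (e x))) →
        IsCWHomogeneous (Set.range v) := by
      rintro ⟨B, hB', S, e, c, t, hc, ht, hF⟩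
      have hN := cw_of_circulant hF hc ht.1
      rw [range_comp_equiv v e] at hN
      exact hN
    exact ⟨⟨fun h => hback (hfwd h), normal_of_cw⟩, ⟨hfwd, fun h => normal_of_cw (hback h)⟩⟩
  · intro n B _ S e c t hbot htop hc hA
    classical
    have : Finite B := Finite.of_equiv _ e.symm
    have : Fintype B := Fintype.ofFinite _
    have ht := hA.1
    rw [← charAdmissible_iff, admissible_iff] at hA
    have hcard : Fintype.card B = n + 1 := by
      rw [Fintype.card_congr e, Fintype.card_fin]
    obtain ⟨u, hu, hd⟩ := exists_simplex (SimpleGraph.circulantGraph S) n hcard c t hc hA.1 hA.2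
    have hF : Follows (SimpleGraph.circulantGraph S) c t u := (follows_iff _ c t u).2 hd
    let v : Fin (n + 1) → EuclideanSpace ℝ (Fin n) := fun i => u (e.symm i)
    have h3 : (fun x => v (e x)) = u := by
      ext x
      simp [v]
    have hF' : Follows (SimpleGraph.circulantGraph S) c t (fun x => v (e x)) := by
      rw [h3]; exact hF
    have h2 := twoDistance_of_follows hF' hc ht hbot htop
    have hN := cw_of_circulant hF' hc ht
    rw [range_comp_equiv v e] at h2 hN
    have : Finite (Set.range v) := Set.finite_range v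
    have : Nonempty (Set.range v) := ⟨⟨v 0, Set.mem_range_self _⟩⟩
    refine ⟨v, ?_, h2, hN, normal_of_cw hN, hF', circulant_valency e hF' hc ht hbot 0⟩
    exact hu.comp_embedding e.symm.toEmbedding

end Pool.Agent.H62.TD
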