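import Pool.Agent.H62.TD.Count

/-!
Periods and the gap argument (MP_2fc877_gt).
-/

namespace Pool.Agent.H62.TD

variable {G Ω : Type*} [Group G] [MulAction G Ω]

/-- `a` returns `x` to itself after at most `E` steps -/
def Per (E : ℕ) (a : G) (x : Ω) : Prop := ∃ e, 0 < e ∧ e ≤ E ∧ a ^ e • x = x

theorem Per.mono {E F : ℕ} (h : E ≤ F) {a : G} {x : Ω} (hp : Per E a x) : Per F a x := by
  obtain ⟨e, h1, h2, h3⟩ := hp
  exact ⟨e, h1, h2.trans h, h3⟩

theorem Per.conj {E : ℕ} {a : G} {x : Ω} (g : G) (hp : Per E a x) :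
    Per E (g * a * g⁻¹) (g • x) := by
  obtain ⟨e, h1, h2, h3⟩ := hp
  refine ⟨e, h1, h2, ?_⟩
  rw [conj_pow, mul_smul, inv_smul_smul, mul_smul, h3]

/-- an element preserving a set with at most `M` points returns each of these after at most `M` steps -/
theorem per_of_mapsTo {K : Set Ω} (hK : K.Finite) {M : ℕ} (hM : K.ncard ≤ M) {a : G}
    (ha : ∀ x ∈ K, a • x ∈ K) {x : Ω} (hx : x ∈ K) : Per M a x := by
  classical
  have hmem : ∀ j : ℕ, a ^ j • x ∈ K := by
    intro j
    induction j with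
    | zero => simpa using hx
    | succ j ih => rw [pow_succ', mul_smul]; exact ha _ ih
  obtain ⟨i, hi, j, hj, hij, heq⟩ := Finset.exists_ne_map_eq_of_card_lt_of_maps_to
    (s := Finset.range (M + 1)) (t := hK.toFinset) (f := fun j => a ^ j • x) (by
      rw [Finset.card_range, ← Set.ncard_eq_toFinset_card K hK]
      omega) (by
      intro j _
      simpa using hmem j)
  have key : ∀ i j : ℕ, i < j → j < M + 1 → a ^ i • x = a ^ j • x → Per M a x := by
    intro i j hlt hj h
    refine ⟨j - i, by omega, by omega, ?_⟩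
    have e : a ^ j = a ^ i * a ^ (j - i) := by rw [← pow_add]; congr 1; omega
    rw [e, mul_smul] at h
    exact (MulAction.injective (a ^ i) h).symm
  rcases lt_or_gt_of_ne hij with h | h
  · exact key i j h (Finset.mem_range.1 hj) heq
  · exact key j i h (Finset.mem_range.1 hi) heq.symm

/-- periods grow at most by the factor `m` along a step of a conjugation invariant set -/
theorem Per.step [Finite Ω] {A : Set G} (hc : ∀ g : G, ∀ s ∈ A, g * s * g⁻¹ ∈ A) {m : ℕ}
    {x : Ω} (hm : {y | stepRel A x y}.ncard ≤ m) {E : ℕ} {a : G} (hp : Per E a x) {y : Ω}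
    (hy : stepRel A x y) : Per (E * m) a y := by
  obtain ⟨e, h1, h2, h3⟩ := hp
  have hK : {y | stepRel A x y}.Finite := Set.toFinite _
  have hmap : ∀ z ∈ {y | stepRel A x y}, a ^ e • z ∈ {y | stepRel A x y} := by
    rintro z ⟨s, hs, rfl⟩
    refine ⟨a ^ e * s * (a ^ e)⁻¹, hc _ s hs, ?_⟩
    have : (a ^ e)⁻¹ • x = x := by
      rw [inv_smul_eq_iff, h3]
    rw [mul_smul, this, mul_smul]
  obtain ⟨f, g1, g2, g3⟩ := per_of_mapsTo hK hm hmap hy
  refine ⟨e * f, Nat.mul_pos h1 g1, Nat.mul_le_mul h2 g2, ?_⟩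
  rw [pow_mul]
  exact g3

/-- the relation of being moved by an element of `A` with short period -/
def perRel (A : Set G) (E : ℕ) (x y : Ω) : Prop := ∃ a ∈ A, a • x = y ∧ Per E a x

theorem perRel_mono {A : Set G} {E F : ℕ} (h : E ≤ F) {x y : Ω} (hp : perRel A E x y) :
    perRel A F x y := by
  obtain ⟨a, h1, h2, h3⟩ := hp
  exact ⟨a, h1, h2, h3.mono h⟩

theorem perRel_step {A : Set G} {E : ℕ} {x y : Ω} (hp : perRel A E x y) : stepRel A x y := by
  obtain ⟨a, h1, h2, h3⟩ := hp
  exact ⟨a, h1, h2⟩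

theorem perRel_refl {A : Set G} (h1 : 1 ∈ A) {E : ℕ} (hE : 0 < E) (x : Ω) : perRel A E x x :=
  ⟨1, h1, one_smul _ _, 1, one_pos, hE, by simp⟩

theorem perRel_smul {A : Set G} (hc : ∀ g : G, ∀ s ∈ A, g * s * g⁻¹ ∈ A) {E : ℕ} (g : G) (x y : Ω)
    (hp : perRel A E x y) : perRel A E (g • x) (g • y) := by
  obtain ⟨a, h1, h2, h3⟩ := hp
  exact ⟨g * a * g⁻¹, hc g a h1, by rw [mul_smul, inv_smul_smul, mul_smul, h2], h3.conj g⟩

theorem perRel_symm {A : Set G} (hi : ∀ a ∈ A, a⁻¹ ∈ A) {E : ℕ} {x y : Ω}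
    (hp : perRel A E x y) : perRel A E y x := by
  obtain ⟨a, h1, h2, e, h3, h4, h5⟩ := hp
  refine ⟨a⁻¹, hi a h1, by rw [← h2, inv_smul_smul], e, h3, h4, ?_⟩
  rw [inv_pow, inv_smul_eq_iff, ← h2, ← mul_smul, ← pow_succ, pow_succ', mul_smul, h5]

/-- monotone chains of subsets of a set with `m` elements are stationary somewhere -/
theorem exists_gap {X : Type*} {m : ℕ} (R : ℕ → Set X) (hf : ∀ j, (R j).Finite)
    (hmono : ∀ j, R j ⊆ R (j + 1)) (hm : (R m).ncard ≤ m) (h0 : 0 < (R 0).ncard) :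
    ∃ j < m, R (j + 1) ⊆ R j := by
  by_contra hcon
  push Not at hcon
  have : ∀ j ≤ m, j + 1 ≤ (R j).ncard := by
    intro j
    induction j with
    | zero => intro _; omega
    | succ j ih =>
      intro hj
      have h1 := ih (by omega)
      have h2 : (R j).ncard < (R (j + 1)).ncard := by
        apply Set.ncard_lt_ncard _ (hf _)
        exact ⟨hmono j, hcon j (by omega)⟩
      omega
  have := this m le_rfl
  omega

/-- the length scales -/
def scale (m : ℕ) : ℕ → ℕ
  | 0 => 1
  | j + 1 => scale m j * (m + 1) ^ (m * scale m j + 2) + m * scale m j ^ m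

theorem scale_pos (m : ℕ) : ∀ j, 0 < scale m j
  | 0 => one_pos
  | j + 1 => by
      have := scale_pos m j
      have h2 : 0 < scale m j * (m + 1) ^ (m * scale m j + 2) := by positivity
      exact Nat.add_pos_left h2 _

theorem scale_mono (m : ℕ) : Monotone (scale m) := by
  apply monotone_nat_of_le_succ
  intro j
  show scale m j ≤ scale m j * (m + 1) ^ (m * scale m j + 2) + m * scale m j ^ m
  have : 1 ≤ (m + 1) ^ (m * scale m j + 2) := Nat.one_le_pow _ _ (by omega)
  nlinarith [Nat.zero_le (m * scale m j ^ m), Nat.mul_le_mul_left (scale m j) this]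

/-- the component of `x` for a relation -/
def comp (r : Ω → Ω → Prop) (x : Ω) : Set Ω := {y | ∃ n, ball r n x y}

/-- **Bounded components at a gap.** -/
theorem comp_bound [Finite Ω] [MulAction.IsPretransitive G Ω] {A : Set G} (h1 : 1 ∈ A)
    (hc : ∀ g : G, ∀ s ∈ A, g * s * g⁻¹ ∈ A) (x0 : Ω) {m E F : ℕ}
    (hm : {y | stepRel A x0 y}.ncard ≤ m) (hE : 0 < E) (hF : E * (m + 1) ^ (m * E + 2) ≤ F)
    (hgap : ∀ y, perRel A F x0 y → perRel A E x0 y) :
    (comp (perRel A E) x0).ncard ≤ E ^ m := by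
  classical
  -- the gap property and the bound on the number of steps at all points
  have hgap' : ∀ x y : Ω, perRel A F x y → perRel A E x y := by
    intro x y h
    obtain ⟨g, rfl⟩ := MulAction.exists_smul_eq G x0 x
    have h2 := perRel_smul hc g⁻¹ _ _ h
    rw [inv_smul_smul] at h2
    have h3 := perRel_smul hc g _ _ (hgap _ h2)
    rw [smul_inv_smul] at h3
    exact h3
  have hm' : ∀ x : Ω, {y | stepRel A x y}.ncard ≤ m + 1 := by
    intro x
    obtain ⟨g, rfl⟩ := MulAction.exists_smul_eq G x0 x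
    refine le_trans ?_ (hm.trans (Nat.le_succ m))
    have hsub : {y | stepRel A (g • x0) y} ⊆ (fun y => g • y) '' {y | stepRel A x0 y} := by
      rintro y ⟨s, hs, rfl⟩
      refine ⟨g⁻¹ • s • g • x0, ⟨g⁻¹ * s * g, ?_, ?_⟩, ?_⟩
      · have := hc g⁻¹ s hs
        rw [inv_inv] at this
        exact this
      · rw [mul_smul, mul_smul]
      · exact smul_inv_smul _ _
    exact (Set.ncard_le_ncard hsub (Set.toFinite _)).trans (Set.ncard_image_le (Set.toFinite _))
  set T : Set G := {a | a ∈ A ∧ Per E a x0} with hT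
  obtain ⟨q, b, hb, hq, hcov⟩ := exists_reps T x0
  have hqm : q ≤ m := by
    rw [hq]
    refine le_trans (Set.ncard_le_ncard ?_ (Set.toFinite _)) hm
    rintro y ⟨⟨s, hs, rfl⟩, -⟩
    exact ⟨s, hs.1, rfl⟩
  have hcov' : ∀ y, perRel A E x0 y → y = x0 ∨ ∃ i, b i • x0 = y := by
    rintro y ⟨a, ha, hay, hp⟩
    exact hcov y ⟨a, ⟨ha, hp⟩, hay⟩
  -- periods at the points of a ball
  have hper : ∀ (n : ℕ) (u : Ω) (a : G), ball (perRel A E) n x0 u → Per E a x0 →
      Per (E * (m + 1) ^ n) a u := by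
    intro n
    induction n with
    | zero =>
      intro u a hu hp
      have : x0 = u := hu
      rw [← this]
      simpa using hp
    | succ n ih =>
      intro u a hu hp
      -- last step decomposition
      obtain ⟨z, hz1, hz2⟩ : ∃ z, ball (perRel A E) n x0 z ∧ perRel A E z u := by
        have : ∀ (n : ℕ) (x u : Ω), ball (perRel A E) (n + 1) x u →
            ∃ z, ball (perRel A E) n x z ∧ perRel A E z u := by
          intro n
          induction n with
          | zero =>
            rintro x u ⟨z, hz, hz2⟩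
            have : z = u := hz2
            subst this
            exact ⟨x, rfl, hz⟩
          | succ n ihn =>
            rintro x u ⟨z, hz, hz2⟩
            obtain ⟨w, hw1, hw2⟩ := ihn z u hz2
            exact ⟨w, ⟨z, hz, hw1⟩, hw2⟩
        exact this n x0 u hu
      have h3 := (ih z a hz1 hp).step hc (hm' z) (perRel_step hz2)
      rw [mul_assoc, ← pow_succ] at h3
      exact h3
  have hinv : ∀ (g : G) (x y : Ω), perRel A E x y → perRel A E (g • x) (g • y) :=
    fun g x y => perRel_smul hc g x y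
  have hrefl : ∀ x : Ω, perRel A E x x := perRel_refl h1 hE
  set ρ := m * E with hρ
  have hpow : ∀ n ≤ ρ + 1, E * (m + 1) ^ n ≤ F := by
    intro n hn
    refine le_trans ?_ hF
    apply Nat.mul_le_mul_left
    apply Nat.pow_le_pow_right (by omega)
    omega
  have hP : ∀ u, ball (perRel A E) ρ x0 u → ∀ i, perRel A E u (b i • u) := by
    intro u hu i
    apply hgap'
    exact ⟨b i, (hb i).1, rfl, (hper ρ u (b i) hu (hb i).2).mono (hpow ρ (by omega))⟩
  have hQ : ∀ u, ball (perRel A E) ρ x0 u → ∀ i j,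
      perRel A E u (((b j)⁻¹ * b i * b j) • u) := by
    intro u hu i j
    apply hgap'
    refine ⟨_, ?_, rfl, ?_⟩
    · have := hc (b j)⁻¹ (b i) (hb i).1
      rw [inv_inv] at this
      exact this
    · have h2 : ball (perRel A E) (ρ + 1) x0 (b j • u) := ball_succ' _ hu (hP u hu j)
      have h3 := ((hper (ρ + 1) _ (b i) h2 (hb i).2).mono (hpow (ρ + 1) le_rfl)).conj (b j)⁻¹
      rw [inv_inv, inv_smul_smul] at h3
      exact h3
  have hNF : ∀ (w : Ω) (n : ℕ), n ≤ ρ + 1 → ball (perRel A E) n x0 w →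
      (∀ k < n, ¬ ball (perRel A E) k x0 w) →
      ∃ a : Fin q → Fin E, ((Finset.univ : Finset (Fin q)).toList.map
        (fun i => b i ^ (a i : ℕ))).prod • x0 = w ∧ n ≤ ρ := by
    intro w n hn hw hex
    obtain ⟨a, g1, g2, g3⟩ := normalForm_univ (perRel A E) hrefl hinv x0 b hcov' ρ hP hQ w n hn hw hex
    have hlt : ∀ i, a i < E := by
      intro i
      obtain ⟨e, e1, e2, e3⟩ := (hb i).2
      exact (g3 i e e1 e3).trans_le e2
    refine ⟨fun i => ⟨a i, hlt i⟩, g1, ?_⟩
    rw [← g2, hρ]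
    calc ∑ i, a i ≤ ∑ _i : Fin q, E := Finset.sum_le_sum (fun i _ => (hlt i).le)
      _ = q * E := by simp
      _ ≤ m * E := Nat.mul_le_mul_right _ hqm
  -- all points of the component are within distance `ρ`
  have hall : ∀ (n : ℕ) (w : Ω), ball (perRel A E) n x0 w → ball (perRel A E) ρ x0 w := by
    intro n
    induction n with
    | zero =>
      intro w hw
      exact ball_mono _ hrefl (Nat.zero_le _) hw
    | succ n ih =>
      intro w hw
      obtain ⟨z, hz1, hz2⟩ : ∃ z, ball (perRel A E) n x0 z ∧ perRel A E z w := by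
        have : ∀ (n : ℕ) (x u : Ω), ball (perRel A E) (n + 1) x u →
            ∃ z, ball (perRel A E) n x z ∧ perRel A E z u := by
          intro n
          induction n with
          | zero =>
            rintro x u ⟨z, hz, hz2⟩
            have : z = u := hz2
            subst this
            exact ⟨x, rfl, hz⟩
          | succ n ihn =>
            rintro x u ⟨z, hz, hz2⟩
            obtain ⟨w, hw1, hw2⟩ := ihn z u hz2
            exact ⟨w, ⟨z, hz, hw1⟩, hw2⟩
        exact this n x0 w hw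
      have h3 : ball (perRel A E) (ρ + 1) x0 w := ball_succ' _ (ih z hz1) hz2
      obtain ⟨k, hk, hb1, hb2⟩ := exists_exact _ h3
      obtain ⟨-, -, hkρ⟩ := hNF w k hk hb1 hb2
      exact ball_mono _ hrefl hkρ hb1
  let Φ : (Fin q → Fin E) → Ω := fun a => ((Finset.univ : Finset (Fin q)).toList.map
        (fun i => b i ^ (a i : ℕ))).prod • x0
  have hsub : comp (perRel A E) x0 ⊆ Set.range Φ := by
    rintro w ⟨n, hn⟩
    obtain ⟨k, hk, hb1, hb2⟩ := exists_exact _ (hall n w hn)
    obtain ⟨a, ha, -⟩ := hNF w k (by omega) hb1 hb2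
    exact ⟨a, ha⟩
  refine (Set.ncard_le_ncard hsub (Set.toFinite _)).trans ?_
  have h4 : (Set.range Φ).ncard ≤ Nat.card (Fin q → Fin E) := by
    rw [← Nat.card_coe_set_eq]
    exact Nat.card_le_card_of_surjective (Set.rangeFactorization Φ) Set.rangeFactorization_surjective
  refine h4.trans ?_
  simp only [Nat.card_eq_fintype_card, Fintype.card_pi, Fintype.card_fin, Finset.prod_const,
    Finset.card_univ]
  exact Nat.pow_le_pow_right hE hqm

end Pool.Agent.H62.TD
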