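import Mathlib

/-!
Normal forms for group actions with an invariant step relation (MP_2fc877_gt).
-/

namespace Pool.Agent.H62.TD

variable {G Ω : Type*} [Group G] [MulAction G Ω]

/-- `ball r n x y`: from `x` one reaches `y` in exactly `n` steps of the relation `r`. -/
def ball (r : Ω → Ω → Prop) : ℕ → Ω → Ω → Prop
  | 0, x, y => x = y
  | n + 1, x, y => ∃ z, r x z ∧ ball r n z y

theorem ball_add (r : Ω → Ω → Prop) : ∀ (m n : ℕ) (x y z : Ω), ball r m x y → ball r n y z →
    ball r (m + n) x z
  | 0, n, x, y, z, h1, h2 => by
      have h1 : x = y := h1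
      rw [Nat.zero_add, h1]; exact h2
  | m + 1, n, x, y, z, h1, h2 => by
      obtain ⟨w, hw, hw2⟩ := h1
      have : m + 1 + n = (m + n) + 1 := by omega
      rw [this]
      exact ⟨w, hw, ball_add r m n w y z hw2 h2⟩

theorem ball_succ' (r : Ω → Ω → Prop) {n : ℕ} {x y z : Ω} (h : ball r n x y) (h2 : r y z) :
    ball r (n + 1) x z :=
  ball_add r n 1 x y z h ⟨z, h2, rfl⟩

theorem ball_mono (r : Ω → Ω → Prop) (hr : ∀ x, r x x) {m n : ℕ} (h : m ≤ n) {x y : Ω}
    (hb : ball r m x y) : ball r n x y := by
  obtain ⟨k, rfl⟩ := Nat.exists_eq_add_of_le h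
  clear h
  induction k with
  | zero => exact hb
  | succ k ih => exact ball_succ' r ih (hr _)

theorem ball_smul (r : Ω → Ω → Prop) (hr : ∀ (g : G) x y, r x y → r (g • x) (g • y)) (g : G) :
    ∀ (n : ℕ) (x y : Ω), ball r n x y → ball r n (g • x) (g • y)
  | 0, x, y, h => congrArg (g • ·) (show x = y from h)
  | n + 1, x, y, h => by
      obtain ⟨z, hz, hz2⟩ := h
      exact ⟨g • z, hr g x z hz, ball_smul r hr g n z y hz2⟩

/-- powers of an element that makes admissible steps stay in the ball -/
theorem ball_pow (r : Ω → Ω → Prop) (hr : ∀ x, r x x) (x0 : Ω) (ρ : ℕ) (c : G)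
    (hc : ∀ u, ball r ρ x0 u → r u (c • u)) (w : Ω) (m : ℕ) (hw : ball r m x0 w) :
    ∀ a : ℕ, m + a ≤ ρ + 1 → ball r (m + a) x0 (c ^ a • w)
  | 0, _ => by simpa using hw
  | a + 1, h => by
      have ih := ball_pow r hr x0 ρ c hc w m hw a (by omega)
      have h2 := hc _ (ball_mono r hr (show m + a ≤ ρ by omega) ih)
      have := ball_succ' r ih h2
      rw [pow_succ', mul_smul]
      exact this

theorem normalForm {ι : Type*} [DecidableEq ι] (r : Ω → Ω → Prop) (hrefl : ∀ x, r x x)
    (hinv : ∀ (g : G) x y, r x y → r (g • x) (g • y)) (x0 : Ω) (b : ι → G)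
    (hcov : ∀ y, r x0 y → y = x0 ∨ ∃ i, b i • x0 = y) (ρ : ℕ)
    (hP : ∀ u, ball r ρ x0 u → ∀ i, r u (b i • u))
    (hQ : ∀ u, ball r ρ x0 u → ∀ i j, r u (((b j)⁻¹ * b i * b j) • u)) :
    ∀ (L : List ι), L.Nodup → ∀ (w : Ω) (n : ℕ), n ≤ ρ + 1 → ball r n x0 w →
      (∀ m < n, ¬ ball r m x0 w) →
      (∀ i, i ∈ L ∨ ∀ m < n, ¬ ball r m x0 ((b i)⁻¹ • w)) →
      ∃ a : ι → ℕ, (L.map (fun i => b i ^ a i)).prod • x0 = w ∧ (L.map a).sum = n ∧
        ∀ i ∈ L, ∀ e, 0 < e → (b i) ^ e • x0 = x0 → a i < e
  | [], _, w, n, hn, hw, hex, hred => by
      refine ⟨fun _ => 0, ?_, ?_, by simp⟩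
      · rcases Nat.eq_zero_or_pos n with h0 | hpos
        · subst h0
          simpa using (show x0 = w from hw)
        · exfalso
          obtain ⟨k, rfl⟩ : ∃ k, n = k + 1 := ⟨n - 1, by omega⟩
          obtain ⟨y, hy, hy2⟩ := hw
          rcases hcov y hy with h | ⟨i, hi⟩
          · subst h
            exact hex k (by omega) hy2
          · rcases hred i with h | h
            · simp at h
            · apply h k (by omega)
              have := ball_smul r hinv (b i)⁻¹ k y w hy2
              rw [← hi, inv_smul_smul] at this
              exact this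
      · rcases Nat.eq_zero_or_pos n with h0 | hpos
        · subst h0; simp
        · exfalso
          obtain ⟨k, rfl⟩ : ∃ k, n = k + 1 := ⟨n - 1, by omega⟩
          obtain ⟨y, hy, hy2⟩ := hw
          rcases hcov y hy with h | ⟨i, hi⟩
          · subst h
            exact hex k (by omega) hy2
          · rcases hred i with h | h
            · simp at h
            · apply h k (by omega)
              have := ball_smul r hinv (b i)⁻¹ k y w hy2
              rw [← hi, inv_smul_smul] at this
              exact this
  | i :: L, hL, w, n, hn, hw, hex, hred => by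
      classical
      have hiL : i ∉ L := (List.nodup_cons.1 hL).1
      have hLn : L.Nodup := (List.nodup_cons.1 hL).2
      -- the largest power
      let P : ℕ → Prop := fun a => ball r (n - a) x0 ((b i ^ a)⁻¹ • w)
      have hP0 : P 0 := by
        show ball r (n - 0) x0 ((b i ^ 0)⁻¹ • w)
        simpa using hw
      set a := Nat.findGreatest P n with ha
      have hPa : P a := Nat.findGreatest_spec (m := 0) (Nat.zero_le n) hP0
      have han : a ≤ n := Nat.findGreatest_le n
      have hmax : ∀ k, a < k → k ≤ n → ¬ P k := fun k h1 h2 => Nat.findGreatest_is_greatest h1 h2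
      set w' := (b i ^ a)⁻¹ • w with hw'
      have hww : b i ^ a • w' = w := by rw [hw', smul_inv_smul]
      have hPa' : ball r (n - a) x0 w' := hPa
      -- exactness of `w'`
      have hex' : ∀ m < n - a, ¬ ball r m x0 w' := by
        intro m hm hb
        have h1 := ball_pow r hrefl x0 ρ (b i) (fun u hu => hP u hu i) w' m hb a (by omega)
        rw [hww] at h1
        exact hex (m + a) (by omega) h1
      -- reducedness for the processed indices and for `i`
      have hred' : ∀ j, j ∈ L ∨ ∀ m < n - a, ¬ ball r m x0 ((b j)⁻¹ • w') := by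
        intro j
        by_cases hj : j ∈ L
        · exact Or.inl hj
        · right
          intro m hm hb
          by_cases hji : j = i
          · subst hji
            have hk : a + 1 ≤ n := by omega
            apply hmax (a + 1) (by omega) hk
            show ball r (n - (a + 1)) x0 ((b j ^ (a + 1))⁻¹ • w)
            have e : (b j ^ (a + 1))⁻¹ • w = (b j)⁻¹ • w' := by
              rw [hw', pow_succ, mul_inv_rev, mul_smul]
            rw [e]
            exact ball_mono r hrefl (show m ≤ n - (a + 1) by omega) hb
          · have hj2 : ∀ m < n, ¬ ball r m x0 ((b j)⁻¹ • w) := by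
              rcases hred j with h | h
              · rcases List.mem_cons.1 h with h | h
                · exact absurd h hji
                · exact absurd h hj
              · exact h
            have h1 := ball_pow r hrefl x0 ρ ((b j)⁻¹ * b i * b j) (fun u hu => hQ u hu i j)
              ((b j)⁻¹ • w') m hb a (by omega)
            have e : ((b j)⁻¹ * b i * b j) ^ a • (b j)⁻¹ • w' = (b j)⁻¹ • w := by
              have e1 : ((b j)⁻¹ * b i * b j) ^ a = (b j)⁻¹ * b i ^ a * b j := by
                have := conj_pow (i := a) (a := (b j)⁻¹) (b := b i)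
                rw [inv_inv] at this
                exact this
              rw [e1, ← mul_smul, mul_assoc, mul_inv_cancel, mul_one, mul_smul, hww]
            rw [e] at h1
            exact hj2 (m + a) (by omega) h1
      obtain ⟨a', h1, h2, h3⟩ := normalForm r hrefl hinv x0 b hcov ρ hP hQ L hLn w' (n - a)
        (by omega) hPa' hex' hred'
      have hmap : L.map (fun j => b j ^ (Function.update a' i a) j) = L.map (fun j => b j ^ a' j) := by
        apply List.map_congr_left
        intro j hj
        have : j ≠ i := fun h => hiL (h ▸ hj)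
        rw [Function.update_of_ne this]
      have hmap2 : L.map (Function.update a' i a) = L.map a' := by
        apply List.map_congr_left
        intro j hj
        have : j ≠ i := fun h => hiL (h ▸ hj)
        rw [Function.update_of_ne this]
      refine ⟨Function.update a' i a, ?_, ?_, ?_⟩
      · rw [List.map_cons, List.prod_cons, hmap, Function.update_self, mul_smul, h1, hww]
      · rw [List.map_cons, List.sum_cons, hmap2, Function.update_self, h2]
        omega
      · intro j hj e he hex0
        rcases List.mem_cons.1 hj with h | h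
        · subst h
          rw [Function.update_self]
          by_contra hlt
          push Not at hlt
          -- `w` would be closer
          have h4 := ball_pow r hrefl x0 ρ (b j) (fun u hu => hP u hu j) w' (n - a) hPa' (a - e)
            (by omega)
          have e1 : b j ^ (a - e) • w' = (b j ^ e)⁻¹ • w := by
            rw [eq_inv_smul_iff, ← mul_smul, ← pow_add, show e + (a - e) = a by omega, hww]
          rw [e1] at h4
          have h5 := ball_smul r hinv (b j ^ e) _ _ _ h4
          rw [hex0, smul_inv_smul] at h5
          exact hex (n - a + (a - e)) (by omega) h5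
        · have : j ≠ i := fun h' => hiL (h' ▸ h)
          rw [Function.update_of_ne this]
          exact h3 j h e he hex0

end Pool.Agent.H62.TD
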