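import Pool.Agent.H62.TD.Blocks

/-!
The abelian quotient (MP_2fc877_gt).
-/

namespace Pool.Agent.H62.TD

open Subgroup

section

variable {G Ω : Type} [Group G] [MulAction G Ω]

theorem closure_normal {S : Set G} (hc : ∀ g : G, ∀ s ∈ S, g * s * g⁻¹ ∈ S) :
    (closure S).Normal := by
  constructor
  intro n hn g
  induction hn using closure_induction with
  | mem x hx => exact subset_closure (hc g x hx)
  | one => simp
  | mul x y _ _ hx hy =>
    have : g * (x * y) * g⁻¹ = (g * x * g⁻¹) * (g * y * g⁻¹) := by group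
    rw [this]
    exact mul_mem hx hy
  | inv x _ hx =>
    have : g * x⁻¹ * g⁻¹ = (g * x * g⁻¹)⁻¹ := by group
    rw [this]
    exact inv_mem hx

variable (S : Set G) (x0 : Ω)

/-- the abelian group of the structure theorem: the quotient of `⟨S⟩` by its derived group and the
stabiliser of `x0` -/
abbrev AbQ : Type := Additive (Abelianization (closure S) ⧸
  (Subgroup.map (Abelianization.of (G := closure S)) (MulAction.stabilizer (closure S) x0)))

/-- the projection -/
def qmap (g : closure S) : AbQ S x0 :=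
  Additive.ofMul (QuotientGroup.mk (Abelianization.of g))

theorem qmap_mul (g h : closure S) : qmap S x0 (g * h) = qmap S x0 g + qmap S x0 h := rfl

theorem qmap_one : qmap S x0 1 = 0 := rfl

theorem qmap_inv (g : closure S) : qmap S x0 g⁻¹ = - qmap S x0 g := rfl

theorem qmap_surj : Function.Surjective (qmap S x0) := by
  intro b
  obtain ⟨c, hc⟩ := QuotientGroup.mk_surjective (Additive.toMul b)
  obtain ⟨g, hg⟩ : ∃ g, Abelianization.of g = c := QuotientGroup.mk_surjective c
  refine ⟨g, ?_⟩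
  rw [← hg] at hc
  exact congrArg Additive.ofMul hc

theorem qmap_stab (g : closure S) (hg : g • x0 = x0) : qmap S x0 g = 0 := by
  show Additive.ofMul (QuotientGroup.mk (Abelianization.of g)) = 0
  have : (QuotientGroup.mk (Abelianization.of g) : Abelianization (closure S) ⧸
    (Subgroup.map (Abelianization.of (G := closure S)) (MulAction.stabilizer (closure S) x0))) = 1 := by
    rw [QuotientGroup.eq_one_iff]
    exact ⟨g, hg, rfl⟩
  rw [this]; rfl

theorem mem_derived_iff (g : closure S) :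
    g ∈ commutator (closure S) ↔ (g : G) ∈ (⁅closure S, closure S⁆ : Subgroup G) := by
  have e : (commutator (closure S)).map (closure S).subtype = ⁅closure S, closure S⁆ := by
    rw [commutator_def, map_commutator, ← MonoidHom.range_eq_map, Subgroup.range_subtype]
  rw [← e]
  constructor
  · intro h; exact ⟨g, h, rfl⟩
  · rintro ⟨h, hh, hhg⟩
    have : h = g := Subtype.ext hhg
    rwa [← this]

theorem derived_le : (⁅closure S, closure S⁆ : Subgroup G) ≤ closure S := by
  rw [commutator_le]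
  intro a ha b hb
  exact mul_mem (mul_mem (mul_mem ha hb) (inv_mem ha)) (inv_mem hb)

theorem qmap_derived (g : closure S) (hg : (g : G) ∈ (⁅closure S, closure S⁆ : Subgroup G)) :
    qmap S x0 g = 0 := by
  rw [← mem_derived_iff] at hg
  have h1 : Abelianization.of g = 1 := by
    rw [← MonoidHom.mem_ker, Abelianization.ker_of]
    exact hg
  show Additive.ofMul (QuotientGroup.mk (Abelianization.of g)) = 0
  rw [h1]; rfl

/-- the fibres of the projection -/
theorem qmap_eq_iff (g h : closure S) :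
    qmap S x0 g = qmap S x0 h ↔
      ∃ d ∈ (⁅closure S, closure S⁆ : Subgroup G), d • ((g : G) • x0) = (h : G) • x0 := by
  constructor
  · intro heq
    have h1 : qmap S x0 (g⁻¹ * h) = 0 := by
      rw [qmap_mul, qmap_inv, heq, neg_add_cancel]
    have h2 : (QuotientGroup.mk (Abelianization.of (g⁻¹ * h)) : Abelianization (closure S) ⧸
        (Subgroup.map (Abelianization.of (G := closure S))
          (MulAction.stabilizer (closure S) x0))) = 1 := h1
    rw [QuotientGroup.eq_one_iff] at h2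
    obtain ⟨s, hs, hs2⟩ := h2
    have h3 : g⁻¹ * h * s⁻¹ ∈ commutator (closure S) := by
      rw [← Abelianization.ker_of, MonoidHom.mem_ker, map_mul, ← hs2, map_inv, mul_inv_cancel]
    have hsx : (s : G) • x0 = x0 := hs
    have h4 : g * (g⁻¹ * h * s⁻¹) * g⁻¹ ∈ commutator (closure S) := by
      have : (commutator (closure S)).Normal := inferInstance
      exact this.conj_mem _ h3 g
    rw [mem_derived_iff] at h4
    refine ⟨_, h4, ?_⟩
    rw [← mul_smul]
    have e : ((g * (g⁻¹ * h * s⁻¹) * g⁻¹ : closure S) : G) * (g : G) = (h : G) * (s : G)⁻¹ := by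
      simp only [Subgroup.coe_mul, Subgroup.coe_inv]
      group
    rw [e, mul_smul]
    have : (s : G)⁻¹ • x0 = x0 := by rw [inv_smul_eq_iff, hsx]
    rw [this]
  · rintro ⟨d, hd, hdx⟩
    let d' : closure S := ⟨d, derived_le S hd⟩
    have hst : (h⁻¹ * (d' * g)) • x0 = x0 := by
      show ((h⁻¹ * (d' * g) : closure S) : G) • x0 = x0
      simp only [Subgroup.coe_mul, Subgroup.coe_inv]
      rw [mul_smul, mul_smul, inv_smul_eq_iff]
      exact hdx
    have h5 := qmap_stab S x0 _ hst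
    rw [qmap_mul, qmap_mul, qmap_inv, qmap_derived S x0 d' hd, zero_add, neg_add_eq_zero] at h5
    exact h5.symm

end

/-- **The structure theorem for group actions.** -/
theorem structure_action {G Ω : Type} [Group G] [MulAction G Ω] [Finite Ω] [Nonempty Ω]
    [MulAction.IsPretransitive G Ω] {S : Set G} (h1 : 1 ∈ S)
    (hi : ∀ s ∈ S, s⁻¹ ∈ S) (hc : ∀ g : G, ∀ s ∈ S, g * s * g⁻¹ ∈ S) {k : ℕ}
    (hk : ∀ x : Ω, {z | stepRel S x z ∧ z ≠ x}.ncard = k) :
    ∃ (J B : Type) (_ : AddCommGroup B) (π : Ω → J × B) (T : Set B) (b : ℕ),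
      (∀ p, (π ⁻¹' {p}).ncard = b) ∧ 0 < b ∧ b ≤ orbBound (k + 1) ∧ T.ncard ≤ k ∧
      AddSubgroup.closure T = ⊤ ∧
      (∀ x y, stepRel S x y → x ≠ y → ∃ τ ∈ T, π y = ((π x).1, (π x).2 + τ)) ∧
      (∀ x, ∀ τ ∈ T, ∃ y, stepRel S x y ∧ x ≠ y ∧ π y = ((π x).1, (π x).2 + τ)) ∧
      (∀ x y, (π x).1 = (π y).1 ↔ ∃ g ∈ closure S, g • x = y) ∧
      (∀ (f : G) (x y : Ω), π x = π y → π (f • x) = π (f • y)) ∧
      (∀ f ∈ closure S, ∀ j : J, ∃ β : B, ∀ x, (π x).1 = j → π (f • x) = (j, (π x).2 + β)) := by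
  classical
  obtain ⟨x0⟩ := (inferInstance : Nonempty Ω)
  have hG0 : (closure S).Normal := closure_normal hc
  have hD : (⁅closure S, closure S⁆ : Subgroup G).Normal := inferInstance
  set D : Subgroup G := ⁅closure S, closure S⁆ with hDdef
  let J : Type := MulAction.orbitRel.Quotient (closure S) Ω
  -- representatives
  have hrep : ∀ j : J, ∃ g : G, (Quotient.mk (MulAction.orbitRel (closure S) Ω) (g • x0) : J) = j := by
    intro j
    obtain ⟨w, rfl⟩ := Quotient.exists_rep j
    obtain ⟨g, hg⟩ := MulAction.exists_smul_eq G x0 w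
    exact ⟨g, by rw [hg]⟩
  choose γ hγ using hrep
  have hmk : ∀ x y : Ω, (Quotient.mk (MulAction.orbitRel (closure S) Ω) x : J) =
      Quotient.mk (MulAction.orbitRel (closure S) Ω) y ↔ ∃ g ∈ closure S, g • x = y := by
    intro x y
    rw [eq_comm, Quotient.eq, MulAction.orbitRel_apply]
    constructor
    · rintro ⟨g, hg⟩
      exact ⟨g, g.2, hg⟩
    · rintro ⟨g, hg, hgx⟩
      exact ⟨⟨g, hg⟩, hgx⟩
  have hJ : ∀ (j : J) (h : closure S),
      (Quotient.mk (MulAction.orbitRel (closure S) Ω) (γ j • (h : G) • x0) : J) = j := by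
    intro j h
    rw [← hγ j]
    symm
    rw [hmk]
    refine ⟨γ j * h * (γ j)⁻¹, hG0.conj_mem _ h.2 _, ?_⟩
    rw [hγ j, mul_smul, mul_smul, inv_smul_smul]
  have hex : ∀ x : Ω, ∃ h : closure S,
      γ (Quotient.mk (MulAction.orbitRel (closure S) Ω) x) • (h : G) • x0 = x := by
    intro x
    set j : J := Quotient.mk (MulAction.orbitRel (closure S) Ω) x with hj
    have h2 := hγ j
    rw [hj, hmk] at h2
    obtain ⟨g, hg, hgx⟩ := h2
    refine ⟨⟨(γ j)⁻¹ * g * γ j, ?_⟩, ?_⟩
    · have := hG0.conj_mem _ hg (γ j)⁻¹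
      rw [inv_inv] at this
      exact this
    · show γ j • ((γ j)⁻¹ * g * γ j) • x0 = x
      rw [mul_smul, mul_smul, smul_inv_smul]
      exact hgx
  choose η hη using hex
  let π : Ω → J × AbQ S x0 := fun x =>
    (Quotient.mk (MulAction.orbitRel (closure S) Ω) x, qmap S x0 (η x))
  have hπ : ∀ (j : J) (h : closure S), π (γ j • (h : G) • x0) = (j, qmap S x0 h) := by
    intro j h
    have e1 := hJ j h
    apply Prod.ext
    · exact e1
    · show qmap S x0 (η (γ j • (h : G) • x0)) = qmap S x0 h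
      have h3 := hη (γ j • (h : G) • x0)
      rw [e1] at h3
      have h4 := MulAction.injective (γ j) h3
      rw [qmap_eq_iff]
      exact ⟨1, one_mem _, by rw [one_smul]; exact h4⟩
  have hform : ∀ x : Ω, ∃ (j : J) (h : closure S), x = γ j • (h : G) • x0 :=
    fun x => ⟨_, η x, (hη x).symm⟩
  have hπeq : ∀ x y, π x = π y ↔ ∃ d ∈ D, d • x = y := by
    intro x y
    obtain ⟨j, h, rfl⟩ := hform x
    obtain ⟨j', h', rfl⟩ := hform y
    rw [hπ, hπ, Prod.mk.injEq, qmap_eq_iff]
    constructor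
    · rintro ⟨rfl, d, hd, hdx⟩
      refine ⟨γ j * d * (γ j)⁻¹, hD.conj_mem _ hd _, ?_⟩
      rw [mul_smul, mul_smul, inv_smul_smul, hdx]
    · rintro ⟨d, hd, hdx⟩
      have hjj : j = j' := by
        rw [← hJ j h, ← hJ j' h', hmk]
        exact ⟨d, derived_le S hd, hdx⟩
      subst hjj
      refine ⟨rfl, (γ j)⁻¹ * d * γ j, ?_, ?_⟩
      · have := hD.conj_mem _ hd (γ j)⁻¹
        rw [inv_inv] at this
        exact this
      · rw [mul_smul, mul_smul, hdx, inv_smul_smul]
  -- the size of the fibres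
  have horb : ∀ x : Ω, (MulAction.orbit D x).ncard = (MulAction.orbit D x0).ncard := by
    have key : ∀ (g : G) (x : Ω), (MulAction.orbit D (g • x)).ncard ≤ (MulAction.orbit D x).ncard := by
      intro g x
      have hsub : MulAction.orbit D (g • x) ⊆ (fun y => g • y) '' MulAction.orbit D x := by
        rintro _ ⟨d, rfl⟩
        refine ⟨(g⁻¹ * (d : G) * g) • x, ⟨⟨g⁻¹ * (d : G) * g, ?_⟩, rfl⟩, ?_⟩
        · have := hD.conj_mem _ d.2 g⁻¹
          rw [inv_inv] at this
          exact this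
        · show g • (g⁻¹ * (d : G) * g) • x = (d : G) • g • x
          rw [mul_smul, mul_smul, smul_inv_smul]
      exact (Set.ncard_le_ncard hsub (Set.toFinite _)).trans (Set.ncard_image_le (Set.toFinite _))
    intro x
    obtain ⟨g, rfl⟩ := MulAction.exists_smul_eq G x0 x
    apply le_antisymm (key g x0)
    have := key g⁻¹ (g • x0)
    rwa [inv_smul_smul] at this
  have hsurj : Function.Surjective π := by
    rintro ⟨j, b⟩
    obtain ⟨h, rfl⟩ := qmap_surj S x0 b
    exact ⟨_, hπ j h⟩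
  have hfib : ∀ p, (π ⁻¹' {p}).ncard = (MulAction.orbit D x0).ncard := by
    intro p
    obtain ⟨x, rfl⟩ := hsurj p
    rw [← horb x]
    congr 1
    ext y
    rw [Set.mem_preimage, Set.mem_singleton_iff, eq_comm, hπeq]
    constructor
    · rintro ⟨d, hd, rfl⟩
      exact ⟨⟨d, hd⟩, rfl⟩
    · rintro ⟨d, rfl⟩
      exact ⟨d, d.2, rfl⟩
  let T : Set (AbQ S x0) := {b | ∃ s : closure S, (s : G) ∈ S ∧ (s : G) • x0 ≠ x0 ∧ qmap S x0 s = b}
  -- steps upstairs and downstairs
  have hup : ∀ x y, stepRel S x y → x ≠ y → ∃ τ ∈ T, π y = ((π x).1, (π x).2 + τ) := by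
    rintro x _ ⟨s, hs, rfl⟩ hne
    obtain ⟨j, h, rfl⟩ := hform x
    have hs' : (γ j * (h : G))⁻¹ * s * (γ j * (h : G)) ∈ S := by
      have := hc (γ j * (h : G))⁻¹ s hs
      rw [inv_inv] at this
      exact this
    let s' : closure S := ⟨(γ j * (h : G))⁻¹ * s * (γ j * (h : G)), subset_closure hs'⟩
    have e : s • γ j • (h : G) • x0 = γ j • ((h * s' : closure S) : G) • x0 := by
      rw [← mul_smul, ← mul_smul, ← mul_smul]
      congr 1
      show s * γ j * (h : G) = γ j * ((h : G) * ((γ j * (h : G))⁻¹ * s * (γ j * (h : G))))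
      group
    refine ⟨qmap S x0 s', ⟨s', hs', ?_, rfl⟩, ?_⟩
    · intro h0
      apply hne
      rw [e, Subgroup.coe_mul, mul_smul, h0]
    · rw [e, hπ, hπ, qmap_mul]
  have hdown : ∀ x, ∀ τ ∈ T, ∃ y, stepRel S x y ∧ x ≠ y ∧ π y = ((π x).1, (π x).2 + τ) := by
    rintro x _ ⟨s, hs, hne, rfl⟩
    obtain ⟨j, h, rfl⟩ := hform x
    refine ⟨γ j • ((h * s : closure S) : G) • x0, ⟨(γ j * (h : G)) * s * (γ j * (h : G))⁻¹, hc _ _ hs, ?_⟩,
      ?_, ?_⟩
    · rw [← mul_smul, ← mul_smul, ← mul_smul]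
      congr 1
      show γ j * (h : G) * s * (γ j * (h : G))⁻¹ * γ j * (h : G) = γ j * ((h : G) * (s : G))
      group
    · intro h0
      have h1 := MulAction.injective (γ j) h0
      rw [Subgroup.coe_mul, mul_smul] at h1
      exact hne (MulAction.injective (h : G) h1).symm
    · rw [hπ, hπ, qmap_mul]
  refine ⟨J, AbQ S x0, inferInstance, π, T, (MulAction.orbit D x0).ncard, hfib, ?_, ?_, ?_, ?_, hup,
    hdown, ?_, ?_, ?_⟩
  · rw [Set.ncard_pos (Set.toFinite _)]
    exact ⟨x0, MulAction.mem_orbit_self x0⟩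
  · apply derived_orbit h1 hi hc x0
    have hsub : {z | stepRel S x0 z} ⊆ insert x0 {z | stepRel S x0 z ∧ z ≠ x0} := by
      intro z hz
      by_cases h : z = x0
      · exact Or.inl h
      · exact Or.inr ⟨hz, h⟩
    refine (Set.ncard_le_ncard hsub (Set.toFinite _)).trans ?_
    refine (Set.ncard_insert_le _ _).trans ?_
    rw [hk x0]
  · have hsub : T ⊆ (fun y => (π y).2 - (π x0).2) '' {z | stepRel S x0 z ∧ z ≠ x0} := by
      intro τ hτ
      obtain ⟨y, hy1, hy2, hy3⟩ := hdown x0 τ hτ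
      refine ⟨y, ⟨hy1, hy2.symm⟩, ?_⟩
      show (π y).2 - (π x0).2 = τ
      rw [hy3]
      exact add_sub_cancel_left _ _
    refine (Set.ncard_le_ncard hsub (Set.toFinite _)).trans ?_
    refine (Set.ncard_image_le (Set.toFinite _)).trans ?_
    rw [hk x0]
  · rw [eq_top_iff]
    rintro b -
    obtain ⟨⟨g, hg⟩, rfl⟩ := qmap_surj S x0 b
    have key : ∀ (g : G) (hg : g ∈ closure S), qmap S x0 ⟨g, hg⟩ ∈ AddSubgroup.closure T := by
      intro g hg
      induction hg using closure_induction with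
      | mem x hx =>
        by_cases h0 : x • x0 = x0
        · rw [qmap_stab S x0 ⟨x, _⟩ h0]
          exact zero_mem _
        · exact AddSubgroup.subset_closure ⟨⟨x, _⟩, hx, h0, rfl⟩
      | one => exact zero_mem _
      | mul x y hx hy ihx ihy =>
        have e : qmap S x0 ⟨x * y, mul_mem hx hy⟩ = qmap S x0 ⟨x, hx⟩ + qmap S x0 ⟨y, hy⟩ :=
          qmap_mul S x0 ⟨x, hx⟩ ⟨y, hy⟩
        rw [e]
        exact add_mem ihx ihy
      | inv x hx ih =>
        have e : qmap S x0 ⟨x⁻¹, inv_mem hx⟩ = - qmap S x0 ⟨x, hx⟩ := qmap_inv S x0 ⟨x, hx⟩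
        rw [e]
        exact neg_mem ih
    exact key g hg
  · intro x y
    exact hmk x y
  · intro f x y hxy
    rw [hπeq] at hxy ⊢
    obtain ⟨d, hd, rfl⟩ := hxy
    exact ⟨f * d * f⁻¹, hD.conj_mem _ hd _, by rw [mul_smul, mul_smul, inv_smul_smul]⟩
  · intro f hf j
    have hf' : (γ j)⁻¹ * f * γ j ∈ closure S := by
      have := hG0.conj_mem _ hf (γ j)⁻¹
      rw [inv_inv] at this
      exact this
    refine ⟨qmap S x0 ⟨(γ j)⁻¹ * f * γ j, hf'⟩, ?_⟩
    intro x hx
    obtain ⟨j', h, rfl⟩ := hform x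
    rw [hπ] at hx
    have hx : j' = j := hx
    subst hx
    have e : f • γ j' • (h : G) • x0 =
        γ j' • ((⟨(γ j')⁻¹ * f * γ j', hf'⟩ * h : closure S) : G) • x0 := by
      rw [← mul_smul, ← mul_smul, ← mul_smul]
      congr 1
      show f * γ j' * (h : G) = γ j' * ((γ j')⁻¹ * f * γ j' * (h : G))
      group
    rw [e, hπ, hπ, qmap_mul, add_comm]

end Pool.Agent.H62.TD
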